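import Pool.Agent.Helper98_TOR.Bir
import Pool.Agent.Helper76_TOR.TwS

/-! TOR, pushes, part 5: the input BIRM of the tower. -/

set_option autoImplicit false

namespace Pool.Agent.TOR.H98

open FreeGroup Pool.Agent.TOR.H59 Pool.Agent.TST

theorem upE_up {α : Type} [DecidableEq α] (φ : MulAut (FreeGroup α)) :
    upE (TOW.sm α) φ = up φ := by
  have : (upE (TOW.sm α) φ).toMonoidHom = (up φ).toMonoidHom := by
    apply hom_ext'
    · intro a
      show upE (TOW.sm α) φ (inc a) = up φ (inc a)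
      rw [up_inc]
      exact upE_map (TOW.sm α) φ a
    · show upE (TOW.sm α) φ xx = up φ xx
      rw [up_xx]
      exact upE_new (TOW.sm α) φ none (fun i => by simp [TOW.sm])
  ext1 g
  exact DFunLike.congr_fun this g

/-- general surfaces -/
theorem bir_general {α : Type} [DecidableEq α] [Finite α] {R : Rib α} {Z : List (α × Bool)}
    (hZ : Bd R 0 Z) (hall : ∀ l, l ∈ Z) (hz : FreeGroup.mk Z ≠ 1) :
    TOW.UEX (FreeGroup.mk Z) ∧ TOW.Bir (FreeGroup.mk Z) (Push hZ hall hz) ∧
      ∀ h, Pos R h → TOW.Exa (Push hZ hall hz) h := by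
  refine ⟨?_, ⟨?_, ?_, ?_, ?_⟩, ?_⟩
  · intro E h1 h2 h3
    exact kp_unique hZ hall h1 rfl h2 (fun _ => rfl) h3
  · intro g
    exact (push_mem hZ hall hz g).1
  · intro g u
    exact (push_mem hZ hall hz g).2 u
  · intro g
    exact push_xx hZ hall hz g
  · intro φ hφ g
    rw [upE_up]
    exact push_conj hZ hall hz φ hφ g
  · intro h hh
    show Push hZ hall hz h xx = _
    rw [push_eq hZ hall hz hh.ne hh.cmp, Qt_pos hZ hall hz hh]
    exact Qh_xx hZ hall hz hh

/-- the letters y are positive -/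
theorem pos_y {n : ℕ} (i : Fin n) : Pos (sR n) (FreeGroup.of ((1 : Fin 2), i)) where
  ne := H29.lt_ne_one ((1, i), true)
  cmp := H29.cmp_lt (sR n) ((1, i), true) ((1, i), true)
  lt := by
    have h1 : (FreeGroup.of ((1 : Fin 2), i))⁻¹ = lt (iv ((1, i), true)) :=
      (lt_iv ((1, i), true)).symm
    rw [h1]
    show key (sR n) (lt (iv ((1, i), true))) < key (sR n) (lt ((1, i), true))
    rw [H29.key_lt_lt]
    simp [sR, rk, iv]

/-- the inverses of the letters x are positive -/
theorem pos_x {n : ℕ} (i : Fin n) : Pos (sR n) (FreeGroup.of ((0 : Fin 2), i))⁻¹ where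
  ne := inv_ne_one.2 (H29.lt_ne_one ((0, i), true))
  cmp := (H29.cmp_lt (sR n) ((0, i), true) ((0, i), true)).inv_left.inv_right
  lt := by
    rw [inv_inv]
    have h1 : (FreeGroup.of ((0 : Fin 2), i))⁻¹ = lt (iv ((0, i), true)) :=
      (lt_iv ((0, i), true)).symm
    rw [h1]
    show key (sR n) (lt ((0, i), true)) < key (sR n) (lt (iv ((0, i), true)))
    rw [H29.key_lt_lt]
    simp [sR, rk, iv]

/-- BIRM: the input of the tower -/
theorem birm : TOW.BIRM := by
  intro n hn
  obtain ⟨h1, h2, h3⟩ := bir_general (bd_std n) (all_std n) (zeta_ne_one hn)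
  rw [mk_sZ] at h1 h2
  exact ⟨h1, _, h2, fun i => h3 _ (pos_y i)⟩

end Pool.Agent.TOR.H98
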