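import Pool.Agent.Helper98_TOR.Tri
import Pool.Agent.Helper29_TOR.If2

/-! TOR, pushes, part 4 (BIR): induction over simple elements; the Birman map. -/

set_option autoImplicit false

namespace Pool.Agent.TOR.H98

open FreeGroup Pool.Agent.TOR.H59 Pool.Agent.TOR.H18
open Pool.Agent.TOR.H29 (cmp_lt word_lt)
open scoped Pointwise

section grp
variable {α : Type} [DecidableEq α] {R : Rib α}

/-- a path of letters which avoids the ends of the chord stays on one side -/
theorem path_side {c : FreeGroup α} (hc : ∀ l : α × Bool, Cmp R 0 c 0 (lt l)) (hne : c ≠ 1)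
    (p : FreeGroup α) : ∀ (W : List (α × Bool)) (h0 : FreeGroup α),
    (∀ V U, W = V ++ U → h0 * FreeGroup.mk V ≠ p ∧ h0 * FreeGroup.mk V ≠ p * c) →
    (cy R p h0 (p * c) ↔ cy R p (h0 * FreeGroup.mk W) (p * c)) := by
  intro W
  induction W with
  | nil =>
    intro h0 _
    rw [← FreeGroup.one_eq_mk, mul_one]
  | cons b W ih =>
    intro h0 hav
    have e0 := hav [] (b :: W) rfl
    have e1 := hav [b] W rfl
    rw [← FreeGroup.one_eq_mk, mul_one] at e0
    have h2 := same_side ((hc b).all p h0) e0.1 e0.2 e1.1 e1.2 (ne_mul hne p)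
    have e3 : FreeGroup.mk (b :: W) = lt b * FreeGroup.mk W := by
      rw [lt, FreeGroup.mul_mk]; rfl
    rw [h2, e3, ← mul_assoc]
    apply ih
    intro V U hVU
    have := hav (b :: V) U (by rw [hVU]; rfl)
    have e4 : FreeGroup.mk (b :: V) = lt b * FreeGroup.mk V := by
      rw [lt, FreeGroup.mul_mk]; rfl
    rw [e4, ← mul_assoc] at this
    exact this

theorem tri_cross {β : Type*} [LinearOrder β] {p q r u v : β} (h : Lk u v p q)
    (h1 : ¬ Lk u v p r) (h2 : ¬ Lk u v q r) : r = u ∨ r = v := by
  unfold Lk Cyc at *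
  grind

theorem cmp_of_all {a b : FreeGroup α} (u : FreeGroup α)
    (h : ∀ g : FreeGroup α, ¬ Lk (key R u) (key R (u * a)) (key R g) (key R (g * b))) :
    Cmp R 0 a 0 b := by
  intro g hg
  apply h (u * g)
  rw [← lo_same R 0]
  have := (lo_mv R u (1, 0) (a, 0) (g, 0) (g * b, 0)).2 hg
  simpa only [mv_mk, mul_one, mul_assoc] using this

section zero
variable {k : FreeGroup α} {l : α × Bool} {w : List (α × Bool)} (hw : k.toWord = l :: w)
  (hw0 : w ≠ []) (hkk : Cmp R 0 k 0 k) (hc : ∀ m : α × Bool, Cmp R 0 k 0 (lt m))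
include hw

theorem word_tail : (FreeGroup.mk w).toWord = w ∧ lt l * FreeGroup.mk w = k := by
  have hr : FreeGroup.IsReduced (l :: w) := hw ▸ FreeGroup.isReduced_toWord
  have hr' : FreeGroup.IsReduced w := red_r (L1 := [l]) hr
  refine ⟨by rw [FreeGroup.toWord_mk, hr'.reduce_eq], ?_⟩
  have : FreeGroup.mk k.toWord = k := FreeGroup.mk_toWord
  rw [hw] at this
  rw [← this, lt, FreeGroup.mul_mk]
  rfl

theorem word_pre {V U : List (α × Bool)} (h : w = V ++ U) :
    (lt l * FreeGroup.mk V).toWord = l :: V := by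
  have hr : FreeGroup.IsReduced (l :: w) := hw ▸ FreeGroup.isReduced_toWord
  have hr' : FreeGroup.IsReduced (l :: V) := by
    rw [h] at hr
    exact red_l (L1 := l :: V) (L2 := U) hr
  have : lt l * FreeGroup.mk V = FreeGroup.mk (l :: V) := by
    rw [lt, FreeGroup.mul_mk]; rfl
  rw [this, FreeGroup.toWord_mk, hr'.reduce_eq]

include hw0

theorem k_ne_lt (m : α × Bool) : k ≠ lt m := by
  intro h
  rw [h, word_lt] at hw
  simp only [List.cons.injEq] at hw
  exact hw0 hw.2.symm

omit hw0 in
theorem k_ne_one : k ≠ 1 := by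
  intro h
  rw [h, FreeGroup.toWord_one] at hw
  simp at hw

include hc

/-- the tail is compatible with the letters -/
theorem tail_lt (m : α × Bool) : Cmp R 0 (FreeGroup.mk w) 0 (lt m) := by
  have hwt := (word_tail hw).2
  have key1 : ∀ m' : α × Bool, ¬ Lk (key R (1 : FreeGroup α)) (key R (lt m')) (key R (lt l))
      (key R k) := by
    intro m'
    by_cases e : m' = l
    · subst e
      rw [lk_swap]
      exact not_lk_self _ _ _
    · have h1 := path_side (R := R) (c := lt m') (cmp_lt R m') (H29.lt_ne_one m') 1 w (lt l)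
        (by
          intro V U hVU
          have h2 := word_pre hw hVU
          constructor
          · intro h3; rw [h3, FreeGroup.toWord_one] at h2; simp at h2
          · intro h3
            rw [h3, one_mul, word_lt] at h2
            simp only [List.cons.injEq] at h2
            exact e h2.1)
      rw [one_mul, hwt] at h1
      rw [lk_iff (key_ne (H29.lt_ne_one l)) (key_ne ?_) (key_ne (k_ne_one hw))
        (key_ne (k_ne_lt hw hw0 m')) (key_ne (H29.lt_ne_one m').symm), not_not]
      · exact h1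
      · intro h3
        have h4 := congrArg FreeGroup.toWord h3
        rw [word_lt, word_lt] at h4
        simp only [List.cons.injEq, and_true] at h4
        exact e h4.symm
  refine cmp_of_all (lt l) ?_
  intro g hg
  rw [hwt, lk_comm] at hg
  have h1 : ¬ Lk (key R g) (key R (g * lt m)) (key R (lt l)) (key R (1 : FreeGroup α)) := by
    have := cmp_lk (cmp_lt R m l) g 1
    rw [one_mul, lk_swap'] at this
    exact this
  have h2 : ¬ Lk (key R g) (key R (g * lt m)) (key R k) (key R (1 : FreeGroup α)) := by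
    have := cmp_lk (hc m).symm g 1
    rw [one_mul, lk_swap'] at this
    exact this
  rcases tri_cross hg h1 h2 with h3 | h3
  · have h4 := key_inj R h3
    subst h4
    rw [one_mul] at hg
    exact key1 m hg
  · have h4 := key_inj R h3
    have h5 : g = lt (iv m) := by rw [lt_iv]; exact eq_inv_of_mul_eq_one_left h4.symm
    rw [← h4, h5, lk_swap] at hg
    exact key1 _ hg

include hkk

/-- the tail is compatible with the element -/
theorem tail_k : Cmp R 0 k 0 (FreeGroup.mk w) := by
  have hwt := (word_tail hw).2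
  have hk1 := k_ne_one hw
  have hk2 : k⁻¹ ≠ k := inv_ne_self.2 hk1
  refine Cmp.symm (cmp_of_all (lt l) ?_)
  intro g hg
  rw [hwt, lk_comm] at hg
  -- translate so that the chord of k is {1,k}
  have hg' : Lk (key R (1 : FreeGroup α)) (key R k) (key R (g⁻¹ * lt l)) (key R (g⁻¹ * k)) := by
    rw [← lo_same R 0] at hg ⊢
    have := (lo_mv R g⁻¹ _ _ _ _).2 hg
    simpa only [mv_mk, inv_mul_cancel, inv_mul_cancel_left] using this
  have h1 : ¬ Lk (key R (1 : FreeGroup α)) (key R k) (key R (g⁻¹ * lt l)) (key R g⁻¹) := by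
    have := cmp_lk (hc l) 1 g⁻¹
    rwa [one_mul, lk_swap'] at this
  have h2 : ¬ Lk (key R (1 : FreeGroup α)) (key R k) (key R (g⁻¹ * k)) (key R g⁻¹) := by
    have := cmp_lk hkk 1 g⁻¹
    rwa [one_mul, lk_swap'] at this
  rcases tri_cross hg' h1 h2 with h3 | h3
  · have h4 := key_inj R h3
    rw [h4, one_mul, one_mul, lk_swap, lk_swap'] at hg'
    exact not_lk_self _ _ _ hg'
  · have h4 := key_inj R h3
    have h4' : g = k⁻¹ := by rw [← h4, inv_inv]
    rw [h4', inv_mul_cancel] at hg
    have h5 := path_side hc hk1 k⁻¹ w (lt l) (by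
      intro V U hVU
      have h2 := word_pre hw hVU
      rw [inv_mul_cancel]
      constructor
      · intro h3
        rw [h3] at h2
        have h6 : (k⁻¹).toWord.length = k.toWord.length := by
          rw [FreeGroup.toWord_inv, FreeGroup.invRev_length]
        rw [h2, hw, hVU] at h6
        simp only [List.length_cons, List.length_append] at h6
        have h7 : U = [] := List.length_eq_zero_iff.1 (by omega)
        rw [h7, List.append_nil] at hVU
        apply hk2
        apply FreeGroup.toWord_injective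
        rw [h2, hw, hVU]
      · intro h3; rw [h3, FreeGroup.toWord_one] at h2; simp at h2)
    rw [hwt, inv_mul_cancel] at h5
    have n1 : lt l ≠ k⁻¹ := by
      intro h
      apply k_ne_lt hw hw0 (iv l)
      rw [lt_iv, h, inv_inv]
    rw [lk_iff (key_ne n1) (key_ne (H29.lt_ne_one l)) (key_ne hk2.symm)
      (key_ne hk1) (key_ne (inv_ne_one.2 hk1))] at hg
    exact hg h5

/-- the tail is simple -/
theorem tail_tail : Cmp R 0 (FreeGroup.mk w) 0 (FreeGroup.mk w) := by
  have hwt := (word_tail hw).2
  have hk1 := k_ne_one hw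
  have c2 := tail_lt hw hw0 hc l
  have c3 := tail_k hw hw0 hkk hc
  -- general form
  have d2 : ∀ u v : FreeGroup α, ¬ Lk (key R (u * lt l)) (key R (u * k)) (key R (v * lt l))
      (key R v) := by
    intro u v
    have := cmp_lk c2 (u * lt l) v
    rwa [mul_assoc, hwt, lk_swap'] at this
  have d3 : ∀ u v : FreeGroup α, ¬ Lk (key R (u * lt l)) (key R (u * k)) (key R (v * k))
      (key R v) := by
    intro u v
    have := cmp_lk c3.symm (u * lt l) v
    rwa [mul_assoc, hwt, lk_swap'] at this
  refine cmp_of_all (lt l) ?_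
  intro g hg
  rw [hwt] at hg
  obtain ⟨v, rfl⟩ : ∃ v, g = v * lt l := ⟨g * (lt l)⁻¹, by rw [inv_mul_cancel_right]⟩
  rw [mul_assoc, hwt] at hg
  have h1 := d2 1 v
  have h2 := d3 1 v
  rw [one_mul, one_mul] at h1 h2
  have h3 := d2 v 1
  have h4 := d3 v 1
  rw [one_mul] at h3 h4
  have h5 := tri_cross hg h1 h2
  rw [lk_comm] at hg
  have h6 := tri_cross hg h3 h4
  rcases h5 with h5 | h5 <;> rcases h6 with h6 | h6 <;>
    have h5 := key_inj R h5 <;> have h6 := key_inj R h6
  · -- v = lt l, 1 = v * lt l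
    rw [h5] at h6
    exact (inv_ne_self.2 (H29.lt_ne_one l)) (inv_eq_of_mul_eq_one_left h6.symm)
  · rw [h5] at h6
    have h7 : k = lt (iv l) := by rw [lt_iv]; exact eq_inv_of_mul_eq_one_right h6.symm
    exact k_ne_lt hw hw0 _ h7
  · rw [h5] at h6
    have h7 : k = lt (iv l) := by rw [lt_iv]; exact eq_inv_of_mul_eq_one_left h6.symm
    exact k_ne_lt hw hw0 _ h7
  · rw [h5] at h6
    exact (inv_ne_self.2 hk1) (inv_eq_of_mul_eq_one_left h6.symm)

end zero

/-! ### the induction -/

section ind
variable (R) (P : FreeGroup α → Prop) (hinv : ∀ k, P k → P k⁻¹)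
  (hgen : ∀ a : α, P (FreeGroup.of a))
  (htri : ∀ h k : FreeGroup α, h ≠ 1 → k ≠ 1 → h * k ≠ 1 → Cmp R 0 h 0 h → Cmp R 0 k 0 k →
    Cmp R 0 (h * k) 0 (h * k) → Cmp R 0 h 0 k → Cmp R 0 (h * k) 0 h → Cmp R 0 (h * k) 0 k →
    P h → P k → P (h * k))
include hinv hgen htri

theorem arc_ind_zero : ∀ (n : ℕ) (k : FreeGroup α), k.toWord.length = n → k ≠ 1 →
    Cmp R 0 k 0 k → (∀ m : α × Bool, Cmp R 0 k 0 (lt m)) → P k := by
  have hlt : ∀ l : α × Bool, P (lt l) := by
    rintro ⟨a, b⟩
    cases b
    · have := hinv _ (hgen a)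
      rwa [← show lt (iv (a, true)) = (FreeGroup.of a)⁻¹ from lt_iv (a, true)] at this
    · exact hgen a
  intro n
  induction n using Nat.strong_induction_on with
  | _ n ih =>
    intro k hn hk hkk hc
    rcases hw : k.toWord with _ | ⟨l, w⟩
    · exact (hk (by rwa [FreeGroup.toWord_eq_nil_iff] at hw)).elim
    by_cases hw0 : w = []
    · subst hw0
      have : k = lt l := by
        rw [← FreeGroup.mk_toWord (x := k), hw]; rfl
      rw [this]
      exact hlt l
    · obtain ⟨t1, t2⟩ := word_tail hw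
      have c1 := tail_lt hw hw0 hc
      have c2 := tail_k hw hw0 hkk hc
      have c3 := tail_tail hw hw0 hkk hc
      have n1 : (FreeGroup.mk w : FreeGroup α) ≠ 1 := by
        intro h
        rw [h, FreeGroup.toWord_one] at t1
        exact hw0 t1.symm
      have h1 := ih w.length (by rw [← hn, hw]; simp) (FreeGroup.mk w) (by rw [t1]) n1 c3 c1
      have h2 := htri (lt l) (FreeGroup.mk w) (H29.lt_ne_one l) n1 (by rw [t2]; exact hk)
        (cmp_lt R l l) c3 (by rw [t2]; exact hkk) (c1 l).symm (by rw [t2]; exact hc l)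
        (by rw [t2]; exact c2) (hlt l) h1
      rwa [t2] at h2

theorem arc_induction [Finite α] (k : FreeGroup α) (hk : k ≠ 1) (hkk : Cmp R 0 k 0 k) : P k := by
  classical
  have := Fintype.ofFinite α
  let T : FreeGroup α → ℕ := fun k => ∑ a : α, cr R 0 (FreeGroup.of a) 0 k
  have hT : ∀ k, T k⁻¹ = T k := fun k => Finset.sum_congr rfl (fun a _ => cr_inv R 0 _ 0 k)
  suffices H : ∀ (n : ℕ) (k : FreeGroup α), T k = n → k ≠ 1 → Cmp R 0 k 0 k → P k from
    H _ k rfl hk hkk
  intro n
  induction n using Nat.strong_induction_on with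
  | _ n ih =>
    intro k hn hk hkk
    by_cases hex : ∃ a : α, cr R 0 (FreeGroup.of a) 0 k ≠ 0
    · obtain ⟨a, ha⟩ := hex
      have hee : ∀ b : α, Cmp R 0 (FreeGroup.of a) 0 (FreeGroup.of b) := fun b =>
        cmp_lt R (a, true) (b, true)
      have hL : ({k, k⁻¹} : Set (FreeGroup α)).Finite := Set.toFinite _
      have hLinv : ∀ m ∈ ({k, k⁻¹} : Set (FreeGroup α)), m⁻¹ ∈ ({k, k⁻¹} : Set (FreeGroup α)) := by
        rintro m (rfl | rfl)
        · exact Or.inr rfl
        · exact Or.inl (inv_inv _)
      have hx : ∃ g m, m ∈ ({k, k⁻¹} : Set (FreeGroup α)) ∧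
          Lo R (1, 0) (FreeGroup.of a, 0) (g, 0) (g * m, 0) := by
        have h1 : ¬ Cmp R 0 (FreeGroup.of a) 0 k := fun h => ha (cr_eq_zero.2 h)
        unfold Cmp at h1
        push Not at h1
        obtain ⟨g, hg⟩ := h1
        exact ⟨g, k, Or.inl rfl, hg⟩
      obtain ⟨g, m, hs⟩ := exists_sg R 0 (FreeGroup.of a) _ hL hLinv hx
      have hmm : Cmp R 0 m 0 m := by
        rcases hs.mem with h | h <;> rw [h]
        · exact hkk
        · exact hkk.inv_left.inv_right
      have hTm : T m = T k := by
        rcases hs.mem with h | h <;> rw [h]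
        exact hT k
      have hm1 : m ≠ 1 := by
        rcases hs.mem with h | h <;> rw [h]
        · exact hk
        · exact inv_ne_one.2 hk
      have hg1 : g ≠ 1 := by rintro rfl; exact hs.h1.ne12 rfl
      have hgm1 : g * m ≠ 1 := by
        intro h; have := hs.h2.ne23; rw [h] at this; exact this rfl
      obtain ⟨s1, s2⟩ := hs.cmp_self hLinv hmm (hee a)
      obtain ⟨s3, s4⟩ := hs.cmp_mem hLinv hs.mem hmm
      -- the two new elements are compatible
      have s5 : Cmp R 0 g 0 (g * m) := by
        by_cases e : g * m = g⁻¹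
        · rw [e]; exact s1.inv_right
        · intro u hu
          rw [lo_same] at hu
          have h1 : ¬ Lk (key R (1 : FreeGroup α)) (key R g) (key R u) (key R (u * g)) := by
            have := cmp_lk s1 1 u
            rwa [one_mul] at this
          have h2 : ¬ Lk (key R (1 : FreeGroup α)) (key R g) (key R (u * (g * m)))
              (key R (u * g)) := by
            have := cmp_lk s3 1 (u * g)
            rwa [one_mul, lk_swap', mul_assoc] at this
          have h3 := tri_cross hu h1 h2
          rw [lk_comm] at hu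
          have h4 : ¬ Lk (key R u) (key R (u * (g * m))) (key R (1 : FreeGroup α))
              (key R (g * m)) := by
            have := cmp_lk s2 u 1
            rwa [one_mul] at this
          have h5 : ¬ Lk (key R u) (key R (u * (g * m))) (key R g) (key R (g * m)) :=
            cmp_lk s4 u g
          have h6 := tri_cross hu h4 h5
          rcases h3 with h3 | h3 <;> rcases h6 with h6 | h6 <;>
            have h3 := key_inj R h3 <;> have h6 := key_inj R h6
          · -- u g = 1, g m = u
            apply e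
            rw [h6]; exact eq_inv_of_mul_eq_one_left h3
          · have h7 : u = 1 := by simpa using h6.symm
            rw [h7, one_mul] at h3
            exact hg1 h3
          · have h7 : u = 1 := by simpa using h3
            rw [h7] at h6
            exact hgm1 h6
          · have h7 : u = 1 := by simpa using h3
            rw [h7, one_mul, lk_comm] at hu
            exact not_lk_self _ _ _ hu
      have hlt : T g < T m ∧ T (g * m) < T m := by
        have h1 : ∀ b : α, cr R 0 (FreeGroup.of b) 0 g ≤ cr R 0 (FreeGroup.of b) 0 m ∧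
            cr R 0 (FreeGroup.of b) 0 (g * m) ≤ cr R 0 (FreeGroup.of b) 0 m := fun b =>
          hs.cr_le (hee b)
        have h2 := hs.cr_lt (hee a)
        exact ⟨Finset.sum_lt_sum (fun b _ => (h1 b).1) ⟨a, Finset.mem_univ _, h2.1⟩,
          Finset.sum_lt_sum (fun b _ => (h1 b).2) ⟨a, Finset.mem_univ _, h2.2⟩⟩
      rw [hTm, hn] at hlt
      have p1 := ih _ hlt.1 g rfl hg1 s1
      have p2 := ih _ hlt.2 (g * m) rfl hgm1 s2
      have p3 := htri g⁻¹ (g * m) (inv_ne_one.2 hg1) hgm1 (by rwa [inv_mul_cancel_left])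
        s1.inv_left.inv_right s2 (by rwa [inv_mul_cancel_left]) s5.inv_left
        (by rw [inv_mul_cancel_left]; exact s3.symm.inv_right)
        (by rw [inv_mul_cancel_left]; exact s4.symm) (hinv _ p1) p2
      rw [inv_mul_cancel_left] at p3
      rcases hs.mem with h | h
      · rwa [h] at p3
      · rw [h] at p3
        have := hinv _ p3
        rwa [inv_inv] at this
    · push Not at hex
      refine arc_ind_zero R P hinv hgen htri _ k rfl hk hkk ?_
      rintro ⟨a, b⟩
      have h1 : Cmp R 0 k 0 (FreeGroup.of a) := (cr_eq_zero.1 (hex a)).symm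
      cases b
      · have h2 : lt (a, false) = (FreeGroup.of a)⁻¹ := by
          have := lt_iv (a, true)
          exact this
        rw [h2]
        exact h1.inv_right
      · exact h1

end ind

/-! ### the Birman map -/

section surface
variable [Finite α] {Z : List (α × Bool)} (hZ : Bd R 0 Z) (hall : ∀ l, l ∈ Z)
  (hz : FreeGroup.mk Z ≠ 1)
include hZ hall hz

/-- the Birman map -/
noncomputable def Push : FreeGroup α →* MulAut (FreeGroup (Option α)) :=
  FreeGroup.lift (fun a => Qt hZ hall hz (FreeGroup.of a))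

/-- BIRMAN: the Birman map is the push for every simple element -/
theorem push_eq {k : FreeGroup α} (hk : k ≠ 1) (hkk : Cmp R 0 k 0 k) :
    Push hZ hall hz k = Qt hZ hall hz k := by
  refine arc_induction R (fun k => Push hZ hall hz k = Qt hZ hall hz k) ?_ ?_ ?_ k hk hkk
  · intro k h
    rw [_root_.map_inv, h, Qt_inv]
  · intro a
    show FreeGroup.lift (fun a => Qt hZ hall hz (FreeGroup.of a)) (FreeGroup.of a) = _
    rw [FreeGroup.lift_apply_of]
  · intro h k h1 h2 h3 c1 c2 c3 c4 c5 c6 p1 p2
    rw [_root_.map_mul, p1, p2, qt_mul hZ hall hz h1 h2 h3 c1 c2 c3 c4 c5 c6]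

/-- naturality of the Birman map -/
theorem push_conj (φ : MulAut (FreeGroup α)) (hφ : φ (FreeGroup.mk Z) = FreeGroup.mk Z)
    (g : FreeGroup α) :
    up φ * Push hZ hall hz g * (up φ)⁻¹ = Push hZ hall hz (φ g) := by
  have : (MulAut.conj (up φ)).toMonoidHom.comp (Push hZ hall hz) =
      (Push hZ hall hz).comp φ.toMonoidHom := by
    ext1 a
    have hne : (FreeGroup.of a : FreeGroup α) ≠ 1 := H29.lt_ne_one (a, true)
    have hcc : Cmp R 0 (FreeGroup.of a) 0 (FreeGroup.of a) := cmp_lt R (a, true) (a, true)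
    show up φ * Push hZ hall hz (FreeGroup.of a) * (up φ)⁻¹ =
      Push hZ hall hz (φ (FreeGroup.of a))
    rw [push_eq hZ hall hz hne hcc, Qt_conj hZ hall hz hne hcc φ hφ, push_eq]
    · exact fun e => hne ((MulEquiv.map_eq_one_iff φ).1 e)
    · exact (cmp_ap R hZ hall hz φ hφ).2 hcc
  exact DFunLike.congr_fun this g

/-- the properties of the pushes: subgroup of the automorphisms -/
def KP (z : FreeGroup α) : Subgroup (MulAut (FreeGroup (Option α))) where
  carrier := {ψ | ψ (inc z * xx) = inc z * xx ∧ ∀ g, cap (ψ g) = cap g}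
  one_mem' := ⟨rfl, fun _ => rfl⟩
  mul_mem' := by
    rintro a b ⟨a1, a2⟩ ⟨b1, b2⟩
    exact ⟨by rw [MulAut.mul_apply, b1, a1], fun g => by rw [MulAut.mul_apply, a2, b2]⟩
  inv_mem' := by
    rintro a ⟨a1, a2⟩
    refine ⟨?_, fun g => ?_⟩
    · conv_lhs => rw [← a1]
      exact MulAut.inv_apply_self _ a _
    · rw [← a2, MulAut.apply_inv_self]

theorem Qt_mem (h : FreeGroup α) : Qt hZ hall hz h ∈ KP (FreeGroup.mk Z) := by
  rw [Qt]
  split_ifs with h1 h2
  · exact ⟨Qh_w hZ hall hz h1, Qh_cap hZ hall hz h1⟩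
  · exact (KP _).inv_mem ⟨Qh_w hZ hall hz h2, Qh_cap hZ hall hz h2⟩
  · exact (KP _).one_mem

theorem push_mem (g : FreeGroup α) : Push hZ hall hz g ∈ KP (FreeGroup.mk Z) := by
  have h1 : (Push hZ hall hz).range ≤ KP (FreeGroup.mk Z) := by
    unfold Push
    rw [FreeGroup.range_lift_eq_closure, Subgroup.closure_le]
    rintro _ ⟨a, rfl⟩
    exact Qt_mem hZ hall hz _
  exact h1 ⟨g, rfl⟩

/-- the value at x -/
theorem push_xx (g : FreeGroup α) :
    ∃ c, Push hZ hall hz g xx = c * xx * c⁻¹ ∧ cap c = g⁻¹ := by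
  let S : Subgroup (FreeGroup α) :=
    { carrier := {g | ∃ c, Push hZ hall hz g xx = c * xx * c⁻¹ ∧ cap c = g⁻¹}
      one_mem' := ⟨1, by simp, by simp⟩
      mul_mem' := by
        rintro a b ⟨c, c1, c2⟩ ⟨d, d1, d2⟩
        refine ⟨Push hZ hall hz a d * c, ?_, ?_⟩
        · rw [_root_.map_mul, MulAut.mul_apply, d1, _root_.map_mul, _root_.map_mul,
            _root_.map_inv, c1]
          group
        · rw [_root_.map_mul, (push_mem hZ hall hz a).2, c2, d2, mul_inv_rev]
      inv_mem' := by
        rintro a ⟨c, c1, c2⟩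
        refine ⟨Push hZ hall hz a⁻¹ c⁻¹, ?_, ?_⟩
        · have h1 : Push hZ hall hz a⁻¹ (c * xx * c⁻¹) = xx := by
            rw [← c1, ← MulAut.mul_apply, ← _root_.map_mul, inv_mul_cancel, _root_.map_one]
            rfl
          have h3 : ∀ {Y p x : FreeGroup (Option α)}, Y * p * Y⁻¹ = x → p = Y⁻¹ * x * (Y⁻¹)⁻¹ := by
            intro Y p x h
            rw [← h]
            group
          rw [_root_.map_mul, _root_.map_mul,
            _root_.map_inv (Push hZ hall hz a⁻¹ : MulAut (FreeGroup (Option α))) c] at h1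
          rw [_root_.map_inv (Push hZ hall hz a⁻¹ : MulAut (FreeGroup (Option α))) c]
          exact h3 h1
        · rw [(push_mem hZ hall hz a⁻¹).2, _root_.map_inv cap, c2] }
  have hS : S = ⊤ := by
    rw [eq_top_iff, ← FreeGroup.closure_range_of α, Subgroup.closure_le]
    rintro _ ⟨a, rfl⟩
    show ∃ c, Push hZ hall hz (FreeGroup.of a) xx = c * xx * c⁻¹ ∧ cap c = (FreeGroup.of a)⁻¹
    have hne : (FreeGroup.of a : FreeGroup α) ≠ 1 := H29.lt_ne_one (a, true)
    have hcc : Cmp R 0 (FreeGroup.of a) 0 (FreeGroup.of a) := cmp_lt R (a, true) (a, true)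
    rw [push_eq hZ hall hz hne hcc]
    rcases pos_or hne hcc with h1 | h1
    · refine ⟨(inc (FreeGroup.of a))⁻¹, ?_, by rw [_root_.map_inv, cap_inc]⟩
      rw [Qt_pos hZ hall hz h1, Qh_xx, inv_inv]
    · refine ⟨xx⁻¹ * inc (FreeGroup.of a)⁻¹, ?_, by simp⟩
      rw [Qt_neg hZ hall hz h1]
      show Qm h1 xx = _
      rw [Qm_xx]
      group
  have : g ∈ S := by rw [hS]; trivial
  exact this

end surface

end grp

end Pool.Agent.TOR.H98
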