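import Pool.Agent.Helper98_TOR.Birm
import Pool.Agent.Helper76_TOR.TwX

/-! TOR, tower: the ribbon structure of the closed-up surface with one more handle. -/

set_option autoImplicit false

namespace Pool.Agent.TOR.H98

open FreeGroup Pool.Agent.TOR.H59

section crib
variable {α η : Type}

/-- embedding of the old letters -/
def em : α ⊕ η → Option α ⊕ Option η := Sum.map some some

/-- the ranks -/
def crr (R : Rib (α ⊕ η)) : (Option α ⊕ Option η) × Bool → ℕ
  | (Sum.inl none, true) => R.N + 2
  | (Sum.inl none, false) => R.N + 4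
  | (Sum.inr none, true) => 1
  | (Sum.inr none, false) => R.N + 3
  | (Sum.inl (some a), b) => R.r (Sum.inl a, b) + 1
  | (Sum.inr (some h), b) => R.r (Sum.inr h, b) + 1

theorem crr_em (R : Rib (α ⊕ η)) (l : α ⊕ η) (b : Bool) : crr R (em l, b) = R.r (l, b) + 1 := by
  rcases l with a | h <;> rfl

/-- the new ribbon structure: y x⁻¹ y⁻¹ Z x -/
def crR (R : Rib (α ⊕ η)) : Rib (Option α ⊕ Option η) where
  N := R.N + 4
  r := crr R
  inj := by
    have h1 : ∀ l, 1 ≤ R.r l := R.pos
    have h2 : ∀ l, R.r l ≤ R.N := R.le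
    rintro ⟨(_ | a) | (_ | h), (_ | _)⟩ ⟨(_ | a') | (_ | h'), (_ | _)⟩ e <;>
      simp only [crr] at e <;>
      first
        | rfl
        | (exfalso; have := R.pos; omega)
        | (exfalso
           have h3 := h1 (Sum.inl a, false); have h4 := h2 (Sum.inl a, false)
           have h5 := h1 (Sum.inl a, true); have h6 := h2 (Sum.inl a, true)
           omega)
        | (exfalso
           have h3 := h1 (Sum.inl a', false); have h4 := h2 (Sum.inl a', false)
           have h5 := h1 (Sum.inl a', true); have h6 := h2 (Sum.inl a', true)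
           omega)
        | (exfalso
           have h3 := h1 (Sum.inr h, false); have h4 := h2 (Sum.inr h, false)
           have h5 := h1 (Sum.inr h, true); have h6 := h2 (Sum.inr h, true)
           omega)
        | (exfalso
           have h3 := h1 (Sum.inr h', false); have h4 := h2 (Sum.inr h', false)
           have h5 := h1 (Sum.inr h', true); have h6 := h2 (Sum.inr h', true)
           omega)
        | (have := R.inj (Nat.succ.inj e)
           simp only [Prod.mk.injEq, Sum.inl.injEq, Sum.inr.injEq, reduceCtorEq,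
             and_true, and_false, Bool.true_eq_false, Bool.false_eq_true] at this <;>
             (subst this; rfl))
  pos := by
    rintro ⟨(_ | a) | (_ | h), (_ | _)⟩ <;> simp only [crr] <;> omega
  le := by
    have h2 : ∀ l, R.r l ≤ R.N := R.le
    rintro ⟨(_ | a) | (_ | h), (_ | _)⟩ <;> simp only [crr] <;>
      first
        | omega
        | (have := h2 (Sum.inl a, false); omega)
        | (have := h2 (Sum.inl a, true); omega)
        | (have := h2 (Sum.inr h, false); omega)
        | (have := h2 (Sum.inr h, true); omega)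

/-- the new boundary word -/
def crZ (Z : List ((α ⊕ η) × Bool)) : List ((Option α ⊕ Option η) × Bool) :=
  [(Sum.inr none, true), (Sum.inl none, false), (Sum.inr none, false)] ++
    Z.map (fun l => (em l.1, l.2)) ++ [(Sum.inl none, true)]

theorem cr_bd_aux (R : Rib (α ⊕ η)) : ∀ (Z : List ((α ⊕ η) × Bool)) (b : ℕ), Bd R b Z →
    Bd (crR R) (b + 1) (Z.map (fun l => (em l.1, l.2)) ++ [(Sum.inl none, true)])
  | [], b, h => by
      have h1 : b = R.N := h
      subst h1
      exact ⟨rfl, rfl⟩
  | l :: Z, b, h => by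
      have h1 : R.r l = b + 1 := h.1
      refine ⟨?_, ?_⟩
      · show crr R (em l.1, l.2) = b + 1 + 1
        rw [crr_em, ← h1]
      · have h2 := cr_bd_aux R Z _ h.2
        have e : (crR R).r (iv (em l.1, l.2)) = R.r (iv l) + 1 := crr_em R l.1 (!l.2)
        show Bd (crR R) ((crR R).r (iv (em l.1, l.2))) _
        rw [e]
        exact h2

theorem cr_bd {R : Rib (α ⊕ η)} {Z : List ((α ⊕ η) × Bool)} (h : Bd R 0 Z) :
    Bd (crR R) 0 (crZ Z) :=
  ⟨rfl, rfl, rfl, cr_bd_aux R Z 0 h⟩

theorem cr_all {Z : List ((α ⊕ η) × Bool)} (h : ∀ l, l ∈ Z) : ∀ l, l ∈ crZ Z := by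
  have h1 : ∀ (l : α ⊕ η) (b : Bool), (em l, b) ∈ crZ Z := by
    intro l b
    unfold crZ
    simp only [List.mem_append, List.mem_map]
    left; right
    exact ⟨(l, b), h _, rfl⟩
  rintro ⟨(_ | a) | (_ | e), (_ | _)⟩
  · simp [crZ]
  · simp [crZ]
  · exact h1 (Sum.inl a) false
  · exact h1 (Sum.inl a) true
  · simp [crZ]
  · simp [crZ]
  · exact h1 (Sum.inr e) false
  · exact h1 (Sum.inr e) true

theorem cr_mk (Z : List ((α ⊕ η) × Bool)) :
    FreeGroup.mk (crZ Z) = FreeGroup.of (Sum.inr none) * (FreeGroup.of (Sum.inl none))⁻¹ *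
      (FreeGroup.of (Sum.inr none))⁻¹ * FreeGroup.map em (FreeGroup.mk Z) *
      FreeGroup.of (Sum.inl none) := by
  unfold crZ
  rw [← FreeGroup.mul_mk, ← FreeGroup.mul_mk, FreeGroup.map.mk]
  rfl

theorem cr_ne [DecidableEq α] [DecidableEq η] {R : Rib (α ⊕ η)} {Z : List ((α ⊕ η) × Bool)}
    (h : Bd R 0 Z) : FreeGroup.mk (crZ Z) ≠ 1 := by
  intro e
  have h1 : (FreeGroup.mk (crZ Z)).toWord = [] := by rw [e, FreeGroup.toWord_one]
  rw [toWord_mk_bd (crR R) (cr_bd h)] at h1
  simp [crZ] at h1

end crib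

end Pool.Agent.TOR.H98
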