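import Pool.Agent.Helper59_TOR.Inv

/-! TOR, pushes, part 1 (UEX): an endomorphism of the free group with one more letter x, which
fixes x and the boundary word and induces the identity when x is killed, is the identity. -/

set_option autoImplicit false

namespace Pool.Agent.TOR.H98

open FreeGroup Pool.Agent.TOR.H59

/-! ### half-spaces given by a prefix -/

section pre
variable {β : Type} [DecidableEq β]

omit [DecidableEq β] in
theorem prefix_lt_mul {P V : List (β × Bool)} {l : β × Bool} (h : P ≠ V ++ [l]) :
    P <+: V ++ [l] ↔ P <+: V := by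
  rw [List.prefix_concat_iff]
  tauto

/-- the half-spaces of prefixes are almost invariant -/
theorem AI.pre (P : List (β × Bool)) : AI {g : FreeGroup β | P <+: g.toWord} := by
  apply AI.of_letters
  intro l
  have h1 : ({FreeGroup.mk P, FreeGroup.mk P * (lt l)⁻¹} : Set (FreeGroup β)).Finite :=
    Set.toFinite _
  refine h1.subset ?_
  intro w hw
  by_contra hcon
  simp only [Set.mem_insert_iff, Set.mem_singleton_iff, not_or] at hcon
  apply hw
  simp only [Set.mem_ofPred_eq]
  have n1 : P ≠ w.toWord := by
    intro h; apply hcon.1; rw [h, FreeGroup.mk_toWord]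
  have n2 : P ≠ (w * lt l).toWord := by
    intro h; apply hcon.2; rw [h, FreeGroup.mk_toWord, mul_inv_cancel_right]
  rcases word_mul_lt w l with h | h
  · rw [h] at n2 ⊢
    exact (prefix_lt_mul n2).symm
  · rw [h] at n1 ⊢
    exact prefix_lt_mul n1

/-- a prefix which ends with a letter which does not occur in c is not changed by c -/
theorem prefix_mul_of_not_mem (P : List (β × Bool)) (x : β) (b : Bool) : ∀ (c : List (β × Bool)),
    (∀ l ∈ c, l.1 ≠ x) → ∀ g : FreeGroup β,
    (P ++ [(x, b)] <+: g.toWord ↔ P ++ [(x, b)] <+: (g * FreeGroup.mk c).toWord) := by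
  intro c
  induction c with
  | nil => intro _ g; rw [← FreeGroup.one_eq_mk, mul_one]
  | cons l c ih =>
    intro hc g
    have hl : l.1 ≠ x := hc l (List.mem_cons_self ..)
    have e : g * FreeGroup.mk (l :: c) = g * lt l * FreeGroup.mk c := by
      have : FreeGroup.mk (l :: c) = lt l * FreeGroup.mk c := by
        rw [lt, FreeGroup.mul_mk]; rfl
      rw [this, mul_assoc]
    rw [e, ← ih (fun m hm => hc m (List.mem_cons_of_mem _ hm)) (g * lt l)]
    rcases word_mul_lt g l with h | h
    · rw [h]
      refine (prefix_lt_mul ?_).symm
      intro h'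
      have := List.append_inj_right' h' rfl
      simp only [List.cons.injEq, and_true] at this
      exact hl (by rw [← this])
    · rw [h]
      refine prefix_lt_mul ?_
      intro h'
      have := List.append_inj_right' h' rfl
      simp only [List.cons.injEq, and_true] at this
      apply hl
      have h2 := congrArg Prod.fst this
      simpa [iv] using h2.symm

end pre

variable {α : Type}

/-- the inclusion of the free group in the free group with one more letter -/
def inc : FreeGroup α →* FreeGroup (Option α) := FreeGroup.map some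

/-- the new letter -/
def xx : FreeGroup (Option α) := FreeGroup.of none

/-- killing the new letter -/
def cap : FreeGroup (Option α) →* FreeGroup α :=
  FreeGroup.lift (fun o => o.elim 1 FreeGroup.of)

@[simp] theorem cap_xx : cap (xx : FreeGroup (Option α)) = 1 := by
  simp [cap, xx]

@[simp] theorem cap_inc (g : FreeGroup α) : cap (inc g) = g := by
  have : (cap.comp inc : FreeGroup α →* FreeGroup α) = MonoidHom.id _ := by
    ext a
    simp [cap, inc]
  exact DFunLike.congr_fun this g

theorem inc_inj : Function.Injective (inc : FreeGroup α →* FreeGroup (Option α)) :=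
  fun a b h => by rw [← cap_inc a, h, cap_inc]

theorem inc_of (a : α) : inc (FreeGroup.of a) = FreeGroup.of (some a) := by
  simp [inc]

theorem inc_mk (L : List (α × Bool)) :
    inc (FreeGroup.mk L) = FreeGroup.mk (L.map fun l => (some l.1, l.2)) := by
  simp [inc]

theorem hom_ext' {P : Type*} [Group P] {f g : FreeGroup (Option α) →* P}
    (h1 : ∀ a, f (inc a) = g (inc a)) (h2 : f xx = g xx) : f = g := by
  ext o
  cases o with
  | none => exact h2
  | some a => have := h1 (FreeGroup.of a); rwa [inc_of] at this

/-- a word without the new letter -/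
theorem mem_inc_of_word (L : List (Option α × Bool)) (h : ∀ l ∈ L, l.1 ≠ none) :
    ∃ g : FreeGroup α, inc g = FreeGroup.mk L := by
  induction L with
  | nil => exact ⟨1, by rw [_root_.map_one, FreeGroup.one_eq_mk]⟩
  | cons l L ih =>
    obtain ⟨g, hg⟩ := ih (fun m hm => h m (List.mem_cons_of_mem _ hm))
    obtain ⟨o, b⟩ := l
    cases o with
    | none => exact (h _ (List.mem_cons_self ..) rfl).elim
    | some a =>
      refine ⟨FreeGroup.mk [(a, b)] * g, ?_⟩
      rw [_root_.map_mul, hg, inc_mk, FreeGroup.mul_mk]
      rfl

variable [DecidableEq α]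

/-- UEX, first form: an injective homomorphism which fixes the boundary word takes values without
the new letter -/
theorem uex_range [Finite α] (R : Rib α) {Z : List (α × Bool)} (hZ : Bd R 0 Z)
    (hall : ∀ l, l ∈ Z) (f : FreeGroup α →* FreeGroup (Option α)) (hf : Function.Injective f)
    (hz : f (FreeGroup.mk Z) = inc (FreeGroup.mk Z)) (g : FreeGroup α) :
    ∃ g' : FreeGroup α, inc g' = f g := by
  have key1 : ∀ (P : List (Option α × Bool)) (b : Bool), ¬ P ++ [(none, b)] <+: (f g).toWord := by
    intro P b
    have hA : AI {g : FreeGroup α | P ++ [(none, b)] <+: (f g).toWord} := by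
      intro s
      have h1 := (AI.pre (P ++ [(none, b)]) (f s)).preimage (f := f) hf.injOn
      refine h1.subset ?_
      intro g hg
      simp only [Set.mem_ofPred_eq, Set.mem_preimage] at *
      rwa [_root_.map_mul] at hg
    have hX : ∀ g, g ∈ {g : FreeGroup α | P ++ [(none, b)] <+: (f g).toWord} ↔
        g * FreeGroup.mk Z ∈ {g : FreeGroup α | P ++ [(none, b)] <+: (f g).toWord} := by
      intro g
      simp only [Set.mem_ofPred_eq]
      rw [_root_.map_mul, hz, inc_mk]
      apply prefix_mul_of_not_mem
      intro l hl
      obtain ⟨m, _, rfl⟩ := List.mem_map.1 hl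
      simp
    have h2 := rigid R hZ hall hA hX g 1
    simp only [Set.mem_ofPred_eq, _root_.map_one, FreeGroup.toWord_one, List.prefix_nil,
      List.append_eq_nil_iff] at h2
    intro h
    have := h2.1 h
    simp at this
  have h3 := mem_inc_of_word (f g).toWord (by
    intro l hl h
    obtain ⟨U, V, hUV⟩ := List.append_of_mem hl
    obtain ⟨o, b⟩ := l
    simp only at h
    subst h
    apply key1 U b
    rw [hUV]
    exact ⟨V, by simp⟩)
  rwa [FreeGroup.mk_toWord] at h3

/-- UEX -/
theorem uex [Finite α] (R : Rib α) {Z : List (α × Bool)} (hZ : Bd R 0 Z) (hall : ∀ l, l ∈ Z)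
    (E : FreeGroup (Option α) →* FreeGroup (Option α)) (hx : E xx = xx)
    (hw : E (inc (FreeGroup.mk Z) * xx) = inc (FreeGroup.mk Z) * xx)
    (hcap : ∀ g : FreeGroup α, cap (E (inc g)) = g) : E = MonoidHom.id _ := by
  have hz : E (inc (FreeGroup.mk Z)) = inc (FreeGroup.mk Z) := by
    rw [_root_.map_mul, hx] at hw
    exact mul_right_cancel hw
  apply hom_ext'
  · intro g
    obtain ⟨g', hg'⟩ := uex_range R hZ hall (E.comp inc)
      (fun a b h => by
        have := congrArg cap h
        simpa only [MonoidHom.comp_apply, hcap] using this) hz g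
    have h1 : E (inc g) = inc g' := hg'.symm
    have h2 := hcap g
    rw [h1, cap_inc] at h2
    rw [h1, h2]
    rfl
  · rw [hx]; rfl

end Pool.Agent.TOR.H98
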