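import Pool.Agent.Helper59_TOR.Qb
import Pool.Agent.Helper18_TOR.Ord
import Pool.Agent.Helper98_TOR.Uex

/-! TOR, pushes, part 2 (QH): the push along a simple positive element. -/

set_option autoImplicit false

namespace Pool.Agent.TOR.H98

open FreeGroup Pool.Agent.TOR.H59 Pool.Agent.TOR.H18
open scoped Pointwise

/-! ### half-open cyclic intervals in a linear order -/

section ord
variable {β : Type*} [LinearOrder β]

/-- `g` lies in the half-open interval `[a,b)` -/
def Iv (a b g : β) : Prop := g = a ∨ Cyc a g b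

theorem iv_compl {a b g : β} (h : a ≠ b) : ¬ Iv a b g ↔ Iv b a g := by
  unfold Iv Cyc
  grind

theorem iv_inj {a b c d : β} (ha : Iv c d a) (hc : Iv a b c)
    (hb : ¬ Iv c d b) (hd : ¬ Iv a b d) : a = c := by
  unfold Iv Cyc at *
  grind

theorem iv_nest {a b c d : β} (h1 : a ≠ b) (h2 : c ≠ d) (h3 : ¬ Lk a b c d) :
    (∀ g, Iv a b g → Iv c d g) ∨ (∀ g, Iv c d g → Iv a b g) ∨ (∀ g, Iv a b g → ¬ Iv c d g) ∨
      (∀ g, ¬ Iv a b g → Iv c d g) := by
  by_cases hc : c = a ∨ Cyc a c b
  · by_cases hd : d = b ∨ Cyc a d b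
    · by_cases ho : c = a ∨ Cyc a c d
      · right; left
        intro g
        unfold Iv Lk Cyc at *
        grind
      · right; right; right
        intro g
        unfold Iv Lk Cyc at *
        grind
    · by_cases e : c = a
      · left
        intro g
        unfold Iv Lk Cyc at *
        grind
      · right; right; right
        intro g
        unfold Iv Lk Cyc at *
        grind
  · by_cases hd : d = b ∨ Cyc a d b
    · by_cases e : d = b
      · left
        intro g
        unfold Iv Lk Cyc at *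
        grind
      · right; right; right
        intro g
        unfold Iv Lk Cyc at *
        grind
    · by_cases ho : c = b ∨ Cyc b c d
      · right; right; left
        intro g
        unfold Iv Lk Cyc at *
        grind
      · left
        intro g
        unfold Iv Lk Cyc at *
        grind

end ord

/-! ### intervals in the group -/

section grp
variable {α : Type} [DecidableEq α] (R : Rib α)

/-- the half-open interval `[a,b)` of the free group -/
def IV (a b : FreeGroup α) : Set (FreeGroup α) := {g | Iv (key R a) (key R b) (key R g)}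

variable {R}

theorem mem_IV {a b g : FreeGroup α} : g ∈ IV R a b ↔ g = a ∨ cy R a g b := by
  unfold IV Iv cy
  simp only [Set.mem_ofPred_eq]
  constructor
  · rintro (h | h)
    · exact Or.inl (key_inj R h)
    · exact Or.inr h
  · rintro (h | h)
    · exact Or.inl (by rw [h])
    · exact Or.inr h

theorem left_mem_IV (a b : FreeGroup α) : a ∈ IV R a b := mem_IV.2 (Or.inl rfl)

theorem compl_IV {a b : FreeGroup α} (h : a ≠ b) : (IV R a b)ᶜ = IV R b a := by
  ext g
  exact iv_compl (key_ne h)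

theorem right_not_mem_IV {a b : FreeGroup α} (h : a ≠ b) : b ∉ IV R a b := by
  have h1 := left_mem_IV (R := R) b a
  rw [← compl_IV h] at h1
  exact h1

theorem IV_inj {a b c d : FreeGroup α} (h1 : a ≠ b) (h2 : c ≠ d) (h : IV R a b = IV R c d) :
    a = c ∧ b = d := by
  have main : ∀ {a b c d : FreeGroup α}, a ≠ b → c ≠ d → IV R a b = IV R c d → a = c := by
    intro a b c d h1 h2 h
    have ha := left_mem_IV (R := R) a b
    have hb := right_not_mem_IV (R := R) h1
    have hc := left_mem_IV (R := R) c d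
    have hd := right_not_mem_IV (R := R) h2
    rw [h] at ha hb
    rw [← h] at hc hd
    exact key_inj R (iv_inj ha hc hb hd)
  refine ⟨main h1 h2 h, main h1.symm h2.symm ?_⟩
  rw [← compl_IV h1, ← compl_IV h2, h]

theorem smul_IV (u a b : FreeGroup α) : u • IV R a b = IV R (u * a) (u * b) := by
  ext g
  rw [Set.mem_smul_set_iff_inv_smul_mem, mem_IV, mem_IV, smul_eq_mul]
  have h1 := cy_mul R u⁻¹ (u * a) g (u * b)
  rw [inv_mul_cancel_left, inv_mul_cancel_left] at h1
  rw [h1]
  constructor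
  · rintro (h | h)
    · left; rw [← h, mul_inv_cancel_left]
    · exact Or.inr h
  · rintro (h | h)
    · left; rw [h, inv_mul_cancel_left]
    · exact Or.inr h

theorem AI.IV (a b : FreeGroup α) : AI (IV R a b) := by
  refine (AI.ivl R a b).congr (D := {a, b}) (Set.toFinite _) ?_
  intro g hg
  simp only [Set.mem_insert_iff, Set.mem_singleton_iff, not_or] at hg
  rw [mem_IV]
  unfold Ivl
  simp only [Set.mem_ofPred_eq, hg.1, hg.2, false_or, or_false]

variable (R) in
/-- the half-spaces of the translates of the chord {1,h} -/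
def HH (h : FreeGroup α) : Set (Set (FreeGroup α)) :=
  {B | ∃ u, B = IV R u (u * h) ∨ B = IV R (u * h) u}

section simple
variable {h : FreeGroup α} (hne : h ≠ 1)
include hne

omit [DecidableEq α] in
theorem ne_mul (u : FreeGroup α) : u ≠ u * h := fun e => hne (by simpa using e.symm)

theorem hh_poc (hc : Cmp R 0 h 0 h) : Poc (HH R h) := by
  refine ⟨?_, ?_, ?_⟩
  · rintro B ⟨u, rfl | rfl⟩
    · exact ⟨u, Or.inr (compl_IV (ne_mul hne u))⟩
    · exact ⟨u, Or.inl (compl_IV (ne_mul hne u).symm)⟩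
  · have key1 : ∀ u v : FreeGroup α, ¬ Lk (key R u) (key R (u * h)) (key R v) (key R (v * h)) := by
      intro u v
      have := hc.all u v
      rwa [lo_same] at this
    have key2 : ∀ a b c d : FreeGroup α, a ≠ b → c ≠ d →
        ¬ Lk (key R a) (key R b) (key R c) (key R d) →
        IV R a b ⊆ IV R c d ∨ IV R c d ⊆ IV R a b ∨ IV R a b ⊆ (IV R c d)ᶜ ∨
          (IV R a b)ᶜ ⊆ IV R c d := by
      intro a b c d h1 h2 h3
      rcases iv_nest (key_ne h1) (key_ne h2) h3 with h | h | h | h
      · exact Or.inl fun g hg => h _ hg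
      · exact Or.inr (Or.inl fun g hg => h _ hg)
      · exact Or.inr (Or.inr (Or.inl fun g hg => h _ hg))
      · exact Or.inr (Or.inr (Or.inr fun g hg => h _ hg))
    rintro B ⟨u, rfl | rfl⟩ C ⟨v, rfl | rfl⟩
    · exact key2 _ _ _ _ (ne_mul hne u) (ne_mul hne v) (key1 u v)
    · refine key2 _ _ _ _ (ne_mul hne u) (ne_mul hne v).symm ?_
      rw [lk_swap']; exact key1 u v
    · refine key2 _ _ _ _ (ne_mul hne u).symm (ne_mul hne v) ?_
      rw [lk_swap]; exact key1 u v
    · refine key2 _ _ _ _ (ne_mul hne u).symm (ne_mul hne v).symm ?_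
      rw [lk_swap, lk_swap']; exact key1 u v
  · intro p q
    have key1 : ∀ c d : FreeGroup α, {u : FreeGroup α | p ∉ IV R (u * c) (u * d) ∧
        q ∈ IV R (u * c) (u * d)}.Finite := by
      intro c d
      have h1 := (AI.IV (R := R) c d (p⁻¹ * q)).preimage (f := fun u => u⁻¹ * p)
        (fun a _ b _ hab => by simpa using hab)
      refine h1.subset ?_
      intro u hu
      simp only [Set.mem_ofPred_eq, Set.mem_preimage] at *
      rw [← smul_IV, Set.mem_smul_set_iff_inv_smul_mem, Set.mem_smul_set_iff_inv_smul_mem] at hu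
      have e : u⁻¹ * p * (p⁻¹ * q) = u⁻¹ * q := by group
      rw [e]
      exact fun h => hu.1 (h.2 hu.2)
    have h2 := ((key1 1 h).image (fun u => IV R u (u * h))).union
      ((key1 h 1).image (fun u => IV R (u * h) u))
    refine h2.subset ?_
    rintro B ⟨⟨u, rfl | rfl⟩, h3, h4⟩
    · left
      exact ⟨u, by rw [Set.mem_ofPred_eq, mul_one]; exact ⟨h3, h4⟩, rfl⟩
    · right
      exact ⟨u, by rw [Set.mem_ofPred_eq, mul_one]; exact ⟨h3, h4⟩, rfl⟩

omit hne in
theorem hh_smul (g : FreeGroup α) {B : Set (FreeGroup α)} (hB : B ∈ HH R h) :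
    g • B ∈ HH R h := by
  obtain ⟨u, rfl | rfl⟩ := hB
  · exact ⟨g * u, Or.inl (by rw [smul_IV, mul_assoc])⟩
  · exact ⟨g * u, Or.inr (by rw [smul_IV, mul_assoc])⟩

end simple

/-! ### the labels -/

section tau
variable {P : Type*} [Group P] (j : FreeGroup α →* P) (c : P)

open Classical in
variable (R) in
/-- the label of the half-space `u D` is the conjugate of `c` by `u`, the label of its complement
is the inverse -/
noncomputable def tau (h : FreeGroup α) (B : Set (FreeGroup α)) : P :=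
  if hB : ∃ u, B = IV R u (u * h) then j hB.choose * c * (j hB.choose)⁻¹
  else if hB : ∃ u, B = IV R (u * h) u then (j hB.choose * c * (j hB.choose)⁻¹)⁻¹ else 1

variable {h : FreeGroup α} (hne : h ≠ 1)
include hne

theorem tau_pos (u : FreeGroup α) : tau R j c h (IV R u (u * h)) = j u * c * (j u)⁻¹ := by
  have hB : ∃ v, IV R u (u * h) = IV R v (v * h) := ⟨u, rfl⟩
  rw [tau, dif_pos hB]
  have := (IV_inj (ne_mul hne u) (ne_mul hne _) hB.choose_spec).1
  rw [← this]

theorem tau_neg (u : FreeGroup α) : tau R j c h (IV R (u * h) u) = (j u * c * (j u)⁻¹)⁻¹ := by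
  have hB : ∃ v, IV R (u * h) u = IV R (v * h) v := ⟨u, rfl⟩
  have hB' : ¬ ∃ v, IV R (u * h) u = IV R v (v * h) := by
    rintro ⟨v, hv⟩
    have h1 := IV_inj (ne_mul hne u).symm (ne_mul hne _) hv
    have h2 : v = v * h * h := by rw [← h1.2, h1.1]
    have h3 : h ^ 2 = 1 := by
      rw [pow_two]
      exact mul_left_cancel (a := v) (by rw [mul_one, ← mul_assoc]; exact h2.symm)
    exact hne (by simpa using h3)
  rw [tau, dif_neg hB', dif_pos hB]
  have := (IV_inj (ne_mul hne u).symm (ne_mul hne _).symm hB.choose_spec).2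
  rw [← this]

theorem tau_compl (B : Set (FreeGroup α)) (hB : B ∈ HH R h) :
    tau R j c h Bᶜ = (tau R j c h B)⁻¹ := by
  obtain ⟨u, rfl | rfl⟩ := hB
  · rw [compl_IV (ne_mul hne u), tau_pos j c hne, tau_neg j c hne]
  · rw [compl_IV (ne_mul hne u).symm, tau_pos j c hne, tau_neg j c hne, inv_inv]

theorem tau_smul (g : FreeGroup α) (B : Set (FreeGroup α)) (hB : B ∈ HH R h) :
    tau R j c h (g • B) = j g * tau R j c h B * (j g)⁻¹ := by
  obtain ⟨u, rfl | rfl⟩ := hB
  · rw [smul_IV, ← mul_assoc, tau_pos j c hne, tau_pos j c hne, _root_.map_mul]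
    group
  · rw [smul_IV, ← mul_assoc, tau_neg j c hne, tau_neg j c hne, _root_.map_mul]
    group

end tau

variable (R) in
/-- simple and positive -/
structure Pos (h : FreeGroup α) : Prop where
  ne : h ≠ 1
  cmp : Cmp R 0 h 0 h
  lt : key R h⁻¹ < key R h

section push
variable {P : Type*} [Group P] (j : FreeGroup α →* P) (c : P) {h : FreeGroup α}

/-- the homomorphism with the labels `u c u⁻¹` -/
noncomputable def qhom (j : FreeGroup α →* P) (c : P) (hh : Pos R h) : FreeGroup α →* P :=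
  twH (hh_poc hh.ne hh.cmp) (tau_compl j c hh.ne) (1 : FreeGroup α) j
    (fun g _ hB => hh_smul g hB) (tau_smul j c hh.ne)

theorem qhom_apply (hh : Pos R h) (a : FreeGroup α) :
    qhom j c hh a = Th (HH R h) (tau R j c h) 1 a * j a := by
  unfold qhom
  rw [twH_apply, smul_eq_mul, mul_one]

/-- an element which is not separated from 1 is fixed -/
theorem qhom_fix (hh : Pos R h) {k : FreeGroup α}
    (hk : ∀ u : FreeGroup α, (1 : FreeGroup α) ∈ IV R u (u * h) ↔ k ∈ IV R u (u * h)) :
    qhom j c hh k = j k := by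
  rw [qhom_apply, Th_none (hh_poc hh.ne hh.cmp), one_mul]
  rintro B ⟨u, rfl | rfl⟩
  · exact hk u
  · rw [← compl_IV (ne_mul hh.ne u), Set.mem_compl_iff, Set.mem_compl_iff, hk u]

omit [DecidableEq α] in
/-- a path of two half-spaces -/
theorem th_two {H : Set (Set (FreeGroup α))} {τ : Set (FreeGroup α) → P} {p q : FreeGroup α}
    {A B : Set (FreeGroup α)} (hAB : B ⊂ A)
    (hm : ∀ C, (C ∈ H ∧ p ∉ C ∧ q ∈ C) ↔ (C = A ∨ C = B)) : Th H τ p q = τ A * τ B := by
  have : IsPath H p q [A, B] := by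
    refine ⟨fun C => ?_, ?_⟩
    · rw [hm C]; simp
    · simpa using hAB
  rw [this.th]
  simp

/-- the half-spaces on the way from 1 to h -/
theorem path_h (hh : Pos R h) (C : Set (FreeGroup α)) :
    (C ∈ HH R h ∧ (1 : FreeGroup α) ∉ C ∧ h ∈ C) ↔ (C = IV R h⁻¹ 1 ∨ C = IV R h 1) := by
  have hne := hh.ne
  have hne' : h⁻¹ ≠ 1 := by simpa using hne
  have c1 : cy R 1 h⁻¹ h := (cy_one R hne' hne).2 hh.lt
  have c2 : cy R h 1 (h * h) := by
    have := (cy_mul R h 1 h⁻¹ h).2 c1
    rwa [mul_one, mul_inv_cancel] at this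
  have c3 : cy R h⁻¹ (h⁻¹ * h⁻¹) 1 := by
    have := (cy_mul R h⁻¹ 1 h⁻¹ h).2 c1
    rwa [mul_one, inv_mul_cancel] at this
  have hmem1 : h ∈ IV R h⁻¹ 1 := mem_IV.2 (Or.inr c1.rot)
  have hmem2 : h ∈ IV R h 1 := left_mem_IV _ _
  have side : ∀ u : FreeGroup α, u ≠ 1 → u ≠ h → u ≠ h⁻¹ →
      ((1 : FreeGroup α) ∈ IV R u (u * h) ↔ h ∈ IV R u (u * h)) := by
    intro u h1 h2 h3
    have e1 : u * h ≠ 1 := fun e => h3 (eq_inv_of_mul_eq_one_left e)
    have e2 : u * h ≠ h := fun e => h1 (by simpa using e)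
    have s := hh.cmp.all u 1
    rw [one_mul] at s
    have := same_side s h1.symm e1.symm h2.symm e2.symm (ne_mul hne u)
    rw [mem_IV, mem_IV, this]
    simp [h1.symm, h2.symm]
  constructor
  · rintro ⟨⟨u, rfl | rfl⟩, m1, m2⟩
    · by_cases h1 : u = 1
      · subst h1; exact (m1 (left_mem_IV _ _)).elim
      by_cases h2 : u = h
      · subst h2
        exact (m1 (mem_IV.2 (Or.inr c2))).elim
      by_cases h3 : u = h⁻¹
      · subst h3; left; rw [inv_mul_cancel]
      · exact (m1 ((side u h1 h2 h3).2 m2)).elim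
    · have m3 : (1 : FreeGroup α) ∈ IV R u (u * h) := by
        rw [← compl_IV (ne_mul hne u)] at m1; exact not_not.1 m1
      have m4 : h ∉ IV R u (u * h) := by
        rw [← compl_IV (ne_mul hne u)] at m2; exact m2
      by_cases h1 : u = 1
      · subst h1; right; rw [one_mul]
      by_cases h2 : u = h
      · subst h2; exact (m4 (left_mem_IV _ _)).elim
      by_cases h3 : u = h⁻¹
      · subst h3
        rw [inv_mul_cancel] at m4
        exact (m4 hmem1).elim
      · exact (m4 ((side u h1 h2 h3).1 m3)).elim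
  · rintro (rfl | rfl)
    · refine ⟨⟨h⁻¹, Or.inl (by rw [inv_mul_cancel])⟩, right_not_mem_IV hne', hmem1⟩
    · refine ⟨⟨1, Or.inr (by rw [one_mul])⟩, right_not_mem_IV hne, hmem2⟩

/-- nested intervals with a common start -/
theorem IV_ssub {a b c : FreeGroup α} (h : cy R a b c) : IV R a b ⊂ IV R a c := by
  refine ⟨?_, ?_⟩
  · intro g hg
    have h1 : Iv (key R a) (key R b) (key R g) := hg
    show Iv (key R a) (key R c) (key R g)
    unfold Iv cy Cyc at *
    grind
  · intro hsub
    have h1 : b ∈ IV R a c := mem_IV.2 (Or.inr h)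
    have hab : a ≠ b := by rintro rfl; exact h.ne12 rfl
    exact right_not_mem_IV hab (hsub h1)

/-- nested intervals with a common end -/
theorem IV_ssub' {a b c : FreeGroup α} (h : cy R a b c) : IV R b c ⊂ IV R a c := by
  refine ⟨?_, ?_⟩
  · intro g hg
    have h1 : Iv (key R b) (key R c) (key R g) := hg
    show Iv (key R a) (key R c) (key R g)
    unfold Iv cy Cyc at *
    grind
  · intro hsub
    have h1 := hsub (left_mem_IV (R := R) a c)
    rw [mem_IV] at h1
    rcases h1 with h1 | h1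
    · subst h1; exact h.ne12 rfl
    · have h2 : Cyc (key R a) (key R b) (key R c) := h
      have h3 : Cyc (key R b) (key R a) (key R c) := h1
      exact Cyc.asymm h2 h3.rot

theorem qhom_h (hh : Pos R h) :
    qhom j c hh h = (j h)⁻¹ * c * j h * c⁻¹ * j h := by
  have hne' : h⁻¹ ≠ 1 := by simpa using hh.ne
  have c1 : cy R 1 h⁻¹ h := (cy_one R hne' hh.ne).2 hh.lt
  rw [qhom_apply, th_two (A := IV R h⁻¹ 1) (B := IV R h 1) (IV_ssub' c1.rot) (path_h hh)]
  have t1 := tau_pos (R := R) j c hh.ne h⁻¹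
  have t2 := tau_neg (R := R) j c hh.ne 1
  rw [inv_mul_cancel] at t1
  rw [one_mul] at t2
  rw [t1, t2]
  simp only [_root_.map_inv, _root_.map_one, inv_inv, one_mul, inv_one, mul_one, mul_assoc]

/-- the half-spaces on the way from 1 to the successor of 1 -/
theorem path_z (hh : Pos R h) {z : FreeGroup α} (hno : ∀ g h : FreeGroup α, ¬ cy R g h (g * z))
    (hz : z ≠ 1) (C : Set (FreeGroup α)) :
    (C ∈ HH R h ∧ (1 : FreeGroup α) ∉ C ∧ z ∈ C) ↔
      (C = IV R z (z * h) ∨ C = IV R z (z * h⁻¹)) := by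
  have hne := hh.ne
  have hne' : h⁻¹ ≠ 1 := by simpa using hne
  have n1 : ∀ g, ¬ cy R 1 g z := fun g => by have := hno 1 g; rwa [one_mul] at this
  have key1 : ∀ a b : FreeGroup α, a ≠ b → (1 : FreeGroup α) ∉ IV R a b → z ∈ IV R a b →
      a = z := by
    intro a b hab h1 h2
    by_contra hne
    rw [mem_IV] at h2
    rcases h2 with h2 | h2
    · exact hne h2.symm
    have h3 : (1 : FreeGroup α) ∈ IV R b a := by rw [← compl_IV hab]; exact h1
    rw [mem_IV] at h3
    apply n1 a
    rcases h3 with h3 | h3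
    · subst h3; exact h2.rot.rot
    · have h4 : Cyc (key R b) (key R 1) (key R a) := h3
      have h5 : Cyc (key R a) (key R z) (key R b) := h2
      show Cyc (key R 1) (key R a) (key R z)
      unfold Cyc at *
      grind
  have key2 : ∀ b : FreeGroup α, z ≠ b → (1 : FreeGroup α) ∉ IV R z b := by
    intro b hb h
    rw [mem_IV] at h
    rcases h with h | h
    · exact hz h.symm
    · exact n1 b h.rot
  constructor
  · rintro ⟨⟨u, rfl | rfl⟩, m1, m2⟩
    · have := key1 _ _ (ne_mul hne u) m1 m2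
      subst this
      exact Or.inl rfl
    · have := key1 _ _ (ne_mul hne u).symm m1 m2
      right
      rw [← this, mul_inv_cancel_right]
  · rintro (rfl | rfl)
    · exact ⟨⟨z, Or.inl rfl⟩, key2 _ (ne_mul hne z), left_mem_IV _ _⟩
    · exact ⟨⟨z * h⁻¹, Or.inr (by rw [inv_mul_cancel_right])⟩, key2 _ (ne_mul hne' z),
        left_mem_IV _ _⟩

theorem qhom_z (hh : Pos R h) {z : FreeGroup α} (hno : ∀ g h : FreeGroup α, ¬ cy R g h (g * z))
    (hz : z ≠ 1) :
    qhom j c hh z = j z * c * (j h)⁻¹ * c⁻¹ * j h := by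
  have hne' : h⁻¹ ≠ 1 := by simpa using hh.ne
  have c1 : cy R 1 h⁻¹ h := (cy_one R hne' hh.ne).2 hh.lt
  have c2 : cy R z (z * h⁻¹) (z * h) := by
    have := (cy_mul R z 1 h⁻¹ h).2 c1
    rwa [mul_one] at this
  rw [qhom_apply, th_two (A := IV R z (z * h)) (B := IV R z (z * h⁻¹)) (IV_ssub c2)
    (path_z hh hno hz)]
  have t1 := tau_pos (R := R) j c hh.ne z
  have t2 := tau_neg (R := R) j c hh.ne (z * h⁻¹)
  rw [inv_mul_cancel_right] at t2
  rw [t1, t2]
  simp only [_root_.map_inv, _root_.map_mul]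
  group

end push

/-! ### the automorphisms -/

section aut
variable {h : FreeGroup α}

/-- the homomorphism of the big group with given value at the new letter -/
def ext' {P : Type*} [Group P] (f : FreeGroup α →* P) (c : P) : FreeGroup (Option α) →* P :=
  FreeGroup.lift (fun o => o.elim c (fun a => f (FreeGroup.of a)))

omit [DecidableEq α] in
theorem ext'_xx {P : Type*} [Group P] (f : FreeGroup α →* P) (c : P) : ext' f c xx = c := by
  simp [ext', xx]

omit [DecidableEq α] in
theorem ext'_inc {P : Type*} [Group P] (f : FreeGroup α →* P) (c : P) (g : FreeGroup α) :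
    ext' f c (inc g) = f g := by
  have : (ext' f c).comp inc = f := by
    ext a
    simp [ext', inc]
  exact DFunLike.congr_fun this g

/-- the push -/
noncomputable def Qp (hh : Pos R h) : FreeGroup (Option α) →* FreeGroup (Option α) :=
  ext' (qhom inc xx hh) ((inc h)⁻¹ * xx * inc h)

/-- the inverse of the push -/
noncomputable def Qm (hh : Pos R h) : FreeGroup (Option α) →* FreeGroup (Option α) :=
  ext' (qhom inc (inc h * xx⁻¹ * (inc h)⁻¹) hh) (xx⁻¹ * inc h * xx * (inc h)⁻¹ * xx)

theorem Qp_inc (hh : Pos R h) (g : FreeGroup α) : Qp hh (inc g) = qhom inc xx hh g := ext'_inc _ _ _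
theorem Qp_xx (hh : Pos R h) : Qp hh xx = (inc h)⁻¹ * xx * inc h := ext'_xx _ _
theorem Qm_inc (hh : Pos R h) (g : FreeGroup α) :
    Qm hh (inc g) = qhom inc (inc h * xx⁻¹ * (inc h)⁻¹) hh g := ext'_inc _ _ _
theorem Qm_xx (hh : Pos R h) : Qm hh xx = xx⁻¹ * inc h * xx * (inc h)⁻¹ * xx := ext'_xx _ _

theorem cap_qhom (c : FreeGroup (Option α)) (hc : cap c = 1) (hh : Pos R h) (g : FreeGroup α) :
    cap (qhom inc c hh g) = g := by
  rw [qhom_apply, _root_.map_mul, cap_inc, Th_hom _ (hh_poc hh.ne hh.cmp)]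
  have : Th (HH R h) (fun B => cap (tau R inc c h B)) 1 g = 1 := by
    obtain ⟨L, hL⟩ := (hh_poc hh.ne hh.cmp).exists_path 1 g
    rw [hL.th]
    apply List.prod_eq_one
    intro x hx
    obtain ⟨B, hB, rfl⟩ := List.mem_map.1 hx
    obtain ⟨u, rfl | rfl⟩ := ((hL.mem B).1 hB).1
    · rw [tau_pos inc c hh.ne]; simp [hc]
    · rw [tau_neg inc c hh.ne]; simp [hc]
  rw [this, one_mul]

theorem Qp_h (hh : Pos R h) :
    Qp hh (inc h) = (inc h)⁻¹ * xx * inc h * xx⁻¹ * inc h := by
  rw [Qp_inc, qhom_h]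

theorem Qm_h (hh : Pos R h) : Qm hh (inc h) = xx⁻¹ * inc h * xx := by
  rw [Qm_inc, qhom_h]
  group

section surface
variable [Finite α] {Z : List (α × Bool)} (hZ : Bd R 0 Z) (hall : ∀ l, l ∈ Z)
  (hz : FreeGroup.mk Z ≠ 1)
include hZ hz

omit [Finite α] in
theorem Qp_w (hh : Pos R h) :
    Qp hh (inc (FreeGroup.mk Z) * xx) = inc (FreeGroup.mk Z) * xx := by
  rw [_root_.map_mul, Qp_xx, Qp_inc, qhom_z inc xx hh (no_between R hZ) hz]
  group

omit [Finite α] in
theorem Qm_w (hh : Pos R h) :
    Qm hh (inc (FreeGroup.mk Z) * xx) = inc (FreeGroup.mk Z) * xx := by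
  rw [_root_.map_mul, Qm_xx, Qm_inc, qhom_z inc _ hh (no_between R hZ) hz]
  group

include hall

theorem Qm_Qp (hh : Pos R h) (g : FreeGroup (Option α)) : Qm hh (Qp hh g) = g := by
  have := uex R hZ hall ((Qm hh).comp (Qp hh)) (by
    rw [MonoidHom.comp_apply, Qp_xx, _root_.map_mul, _root_.map_mul, _root_.map_inv, Qm_h, Qm_xx]
    group) (by
    rw [MonoidHom.comp_apply, Qp_w hZ hz, Qm_w hZ hz]) (by
    intro g
    rw [MonoidHom.comp_apply, Qp_inc]
    have e : ∀ y, cap (Qm hh y) = cap y := by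
      intro y
      have : (cap.comp (Qm hh) : FreeGroup (Option α) →* FreeGroup α) = cap := by
        apply hom_ext'
        · intro a
          rw [MonoidHom.comp_apply, Qm_inc, cap_qhom _ (by simp), cap_inc]
        · rw [MonoidHom.comp_apply, Qm_xx]; simp
      exact DFunLike.congr_fun this y
    rw [e, cap_qhom _ (by simp)])
  exact DFunLike.congr_fun this g

theorem Qp_Qm (hh : Pos R h) (g : FreeGroup (Option α)) : Qp hh (Qm hh g) = g := by
  have := uex R hZ hall ((Qp hh).comp (Qm hh)) (by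
    rw [MonoidHom.comp_apply, Qm_xx]
    simp only [_root_.map_mul, _root_.map_inv, Qp_h, Qp_xx]
    group) (by
    rw [MonoidHom.comp_apply, Qm_w hZ hz, Qp_w hZ hz]) (by
    intro g
    rw [MonoidHom.comp_apply, Qm_inc]
    have e : ∀ y, cap (Qp hh y) = cap y := by
      intro y
      have : (cap.comp (Qp hh) : FreeGroup (Option α) →* FreeGroup α) = cap := by
        apply hom_ext'
        · intro a
          rw [MonoidHom.comp_apply, Qp_inc, cap_qhom _ (by simp), cap_inc]
        · rw [MonoidHom.comp_apply, Qp_xx]; simp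
      exact DFunLike.congr_fun this y
    rw [e, cap_qhom _ (by simp)])
  exact DFunLike.congr_fun this g

/-- THE PUSH along a simple positive element -/
noncomputable def Qh (hh : Pos R h) : MulAut (FreeGroup (Option α)) where
  toFun := Qp hh
  invFun := Qm hh
  left_inv := Qm_Qp hZ hall hz hh
  right_inv := Qp_Qm hZ hall hz hh
  map_mul' := _root_.map_mul _

theorem Qh_apply (hh : Pos R h) (g : FreeGroup (Option α)) : Qh hZ hall hz hh g = Qp hh g := rfl

theorem Qh_xx (hh : Pos R h) : Qh hZ hall hz hh xx = (inc h)⁻¹ * xx * inc h := Qp_xx hh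

theorem Qh_w (hh : Pos R h) : Qh hZ hall hz hh (inc (FreeGroup.mk Z) * xx) =
    inc (FreeGroup.mk Z) * xx := Qp_w hZ hz hh

theorem Qh_cap (hh : Pos R h) (g : FreeGroup (Option α)) :
    cap (Qh hZ hall hz hh g) = cap g := by
  have : (cap.comp (Qp hh) : FreeGroup (Option α) →* FreeGroup α) = cap := by
    apply hom_ext'
    · intro a
      rw [MonoidHom.comp_apply, Qp_inc, cap_qhom _ (by simp), cap_inc]
    · rw [MonoidHom.comp_apply, Qp_xx]; simp
  exact DFunLike.congr_fun this g

omit hz in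
/-- an automorphism which fixes w and does not change the classes modulo x is determined by its
value at x -/
theorem kp_unique {φ ψ : MulAut (FreeGroup (Option α))}
    (h1 : φ (inc (FreeGroup.mk Z) * xx) = inc (FreeGroup.mk Z) * xx)
    (h2 : ψ (inc (FreeGroup.mk Z) * xx) = inc (FreeGroup.mk Z) * xx)
    (c1 : ∀ g, cap (φ g) = cap g) (c2 : ∀ g, cap (ψ g) = cap g) (h : φ xx = ψ xx) : φ = ψ := by
  have e2 : ∀ g, ψ⁻¹ (ψ g) = g := fun g => MulAut.inv_apply_self _ ψ g
  have e3 : ∀ g, ψ (ψ⁻¹ g) = g := fun g => MulAut.apply_inv_self _ ψ g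
  have := uex R hZ hall (ψ⁻¹ * φ : MulAut (FreeGroup (Option α))).toMonoidHom (by
    show ψ⁻¹ (φ xx) = xx
    rw [h, e2]) (by
    show ψ⁻¹ (φ (inc (FreeGroup.mk Z) * xx)) = _
    rw [h1, ← h2, e2]
    exact h2.symm) (by
    intro g
    show cap (ψ⁻¹ (φ (inc g))) = g
    rw [← c2, e3, c1, cap_inc])
  ext1 g
  have h3 : ψ⁻¹ (φ g) = g := DFunLike.congr_fun this g
  rw [← h3, e3, h3]

end surface

end aut

/-! ### extension of the automorphisms of the surface -/

section up

/-- the extension of an automorphism by the identity on the new letter -/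
def up (φ : MulAut (FreeGroup α)) : MulAut (FreeGroup (Option α)) where
  toFun := ext' (inc.comp φ.toMonoidHom) xx
  invFun := ext' (inc.comp (φ⁻¹ : MulAut (FreeGroup α)).toMonoidHom) xx
  left_inv := by
    intro g
    have : (ext' (inc.comp (φ⁻¹ : MulAut (FreeGroup α)).toMonoidHom) xx).comp
        (ext' (inc.comp φ.toMonoidHom) xx) = MonoidHom.id (FreeGroup (Option α)) := by
      apply hom_ext'
      · intro a
        rw [MonoidHom.comp_apply, ext'_inc]
        show ext' _ xx (inc (φ a)) = inc a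
        rw [ext'_inc]
        show inc (φ⁻¹ (φ a)) = inc a
        rw [MulAut.inv_apply_self]
      · rw [MonoidHom.comp_apply, ext'_xx, ext'_xx]; rfl
    exact DFunLike.congr_fun this g
  right_inv := by
    intro g
    have : (ext' (inc.comp φ.toMonoidHom) xx).comp
        (ext' (inc.comp (φ⁻¹ : MulAut (FreeGroup α)).toMonoidHom) xx) =
          MonoidHom.id (FreeGroup (Option α)) := by
      apply hom_ext'
      · intro a
        rw [MonoidHom.comp_apply, ext'_inc]
        show ext' _ xx (inc (φ⁻¹ a)) = inc a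
        rw [ext'_inc]
        show inc (φ (φ⁻¹ a)) = inc a
        rw [MulAut.apply_inv_self]
      · rw [MonoidHom.comp_apply, ext'_xx, ext'_xx]; rfl
    exact DFunLike.congr_fun this g
  map_mul' := _root_.map_mul _

omit [DecidableEq α] in
theorem up_inc (φ : MulAut (FreeGroup α)) (g : FreeGroup α) : up φ (inc g) = inc (φ g) :=
  ext'_inc _ _ _

omit [DecidableEq α] in
theorem up_xx (φ : MulAut (FreeGroup α)) : up φ xx = xx :=
  ext'_xx (inc.comp φ.toMonoidHom) xx

omit [DecidableEq α] in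
theorem up_inv_inc (φ : MulAut (FreeGroup α)) (g : FreeGroup α) :
    (up φ)⁻¹ (inc g) = inc (φ⁻¹ g) := ext'_inc _ _ _

omit [DecidableEq α] in
theorem up_inv_xx (φ : MulAut (FreeGroup α)) : (up φ)⁻¹ xx = xx :=
  ext'_xx (inc.comp (φ⁻¹ : MulAut (FreeGroup α)).toMonoidHom) xx

omit [DecidableEq α] in
theorem up_mul (φ ψ : MulAut (FreeGroup α)) : up (φ * ψ) = up φ * up ψ := by
  have : (up (φ * ψ)).toMonoidHom = (up φ * up ψ).toMonoidHom := by
    apply hom_ext'
    · intro a
      show up (φ * ψ) (inc a) = up φ (up ψ (inc a))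
      rw [up_inc, up_inc, up_inc]; rfl
    · show up (φ * ψ) xx = up φ (up ψ xx)
      rw [up_xx, up_xx, up_xx]
  ext1 g
  exact DFunLike.congr_fun this g

omit [DecidableEq α] in
theorem cap_up (φ : MulAut (FreeGroup α)) (g : FreeGroup (Option α)) :
    cap (up φ g) = φ (cap g) := by
  have : cap.comp (up φ).toMonoidHom = φ.toMonoidHom.comp cap := by
    apply hom_ext'
    · intro a
      show cap (up φ (inc a)) = φ (cap (inc a))
      rw [up_inc, cap_inc, cap_inc]
    · show cap (up φ xx) = φ (cap xx)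
      rw [up_xx, cap_xx, _root_.map_one]
  exact DFunLike.congr_fun this g

theorem Pos.ap [Finite α] {Z : List (α × Bool)} (hZ : Bd R 0 Z) (hall : ∀ l, l ∈ Z)
    (hz : FreeGroup.mk Z ≠ 1) {h : FreeGroup α} (hh : Pos R h) (φ : MulAut (FreeGroup α))
    (hφ : φ (FreeGroup.mk Z) = FreeGroup.mk Z) : Pos R (φ h) where
  ne := fun e => hh.ne ((MulEquiv.map_eq_one_iff φ).1 e)
  cmp := (cmp_ap R hZ hall hz φ hφ).2 hh.cmp
  lt := by rw [← _root_.map_inv, key_lt_ap R hZ hall hz φ hφ]; exact hh.lt

/-- naturality of the pushes -/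
theorem Qh_conj [Finite α] {Z : List (α × Bool)} (hZ : Bd R 0 Z) (hall : ∀ l, l ∈ Z)
    (hz : FreeGroup.mk Z ≠ 1) {h : FreeGroup α} (hh : Pos R h) (φ : MulAut (FreeGroup α))
    (hφ : φ (FreeGroup.mk Z) = FreeGroup.mk Z) :
    up φ * Qh hZ hall hz hh * (up φ)⁻¹ = Qh hZ hall hz (hh.ap hZ hall hz φ hφ) := by
  have hφ' : φ⁻¹ (FreeGroup.mk Z) = FreeGroup.mk Z := by
    conv_lhs => rw [← hφ]
    exact MulAut.inv_apply_self _ φ _
  refine kp_unique hZ hall ?_ (Qh_w hZ hall hz _) ?_ (Qh_cap hZ hall hz _) ?_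
  · show up φ (Qh hZ hall hz hh ((up φ)⁻¹ (inc (FreeGroup.mk Z) * xx))) = _
    rw [_root_.map_mul (up φ)⁻¹, up_inv_inc, up_inv_xx, hφ', Qh_w, _root_.map_mul, up_inc, up_xx,
      hφ]
  · intro g
    show cap (up φ (Qh hZ hall hz hh ((up φ)⁻¹ g))) = _
    rw [cap_up, Qh_cap, ← cap_up]
    congr 1
    exact MulAut.apply_inv_self _ (up φ) g
  · show up φ (Qh hZ hall hz hh ((up φ)⁻¹ xx)) = _
    rw [up_inv_xx, Qh_xx, Qh_xx]
    simp only [_root_.map_mul, _root_.map_inv, up_inc, up_xx]

end up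

end grp

end Pool.Agent.TOR.H98
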