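import Pool.Agent.Helper98_TOR.Qh

/-! TOR, pushes, part 3 (TRI): the triangle relation. -/

set_option autoImplicit false

namespace Pool.Agent.TOR.H98

open FreeGroup Pool.Agent.TOR.H59 Pool.Agent.TOR.H18
open scoped Pointwise

section grp
variable {α : Type} [DecidableEq α] {R : Rib α}

/-- unlinked with all translates, at the level of the keys -/
theorem cmp_lk {a b : FreeGroup α} (h : Cmp R 0 a 0 b) (u v : FreeGroup α) :
    ¬ Lk (key R u) (key R (u * a)) (key R v) (key R (v * b)) := by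
  have := h.all u v
  rwa [lo_same] at this

/-- away from four translates nothing is separated -/
theorem same_iv {a k : FreeGroup α} (ha : a ≠ 1) (hc : Cmp R 0 a 0 k) {u : FreeGroup α}
    (h1 : u ≠ 1) (h2 : u ≠ a⁻¹) (h3 : u ≠ k) (h4 : u * a ≠ k) :
    (1 : FreeGroup α) ∈ IV R u (u * a) ↔ k ∈ IV R u (u * a) := by
  have e1 : u * a ≠ 1 := fun e => h2 (eq_inv_of_mul_eq_one_left e)
  have s := hc.all u 1
  rw [one_mul] at s
  have := same_side s h1.symm e1.symm h3.symm h4.symm (ne_mul ha u)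
  rw [mem_IV, mem_IV, this]
  simp [h1.symm, h3.symm]

/-- k is not separated from 1 -/
theorem sep_none {a k : FreeGroup α} (ha : a ≠ 1) (hk : k ≠ 1) (hc : Cmp R 0 a 0 k)
    (h1 : key R k < key R a) (h2 : key R k < key R a⁻¹) (h3 : key R k⁻¹ < key R a)
    (h4 : key R k⁻¹ < key R a⁻¹) (u : FreeGroup α) :
    (1 : FreeGroup α) ∈ IV R u (u * a) ↔ k ∈ IV R u (u * a) := by
  have ha' : a⁻¹ ≠ 1 := by simpa using ha
  have hk' : k⁻¹ ≠ 1 := by simpa using hk
  by_cases e1 : u = 1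
  · subst e1
    rw [one_mul]
    exact iff_of_true (left_mem_IV _ _) (mem_IV.2 (Or.inr ((cy_one R hk ha).2 h1)))
  by_cases e2 : u = a⁻¹
  · subst e2
    rw [inv_mul_cancel]
    refine iff_of_false (right_not_mem_IV ha') ?_
    rw [mem_IV]
    rintro (e | e)
    · rw [e] at h2; exact lt_irrefl _ h2
    · have := (cy_one R hk ha').2 h2
      exact Cyc.asymm this e.rot.rot
  by_cases e3 : u = k
  · subst e3
    refine iff_of_true (mem_IV.2 (Or.inr ?_)) (left_mem_IV _ _)
    have := (cy_mul R u 1 u⁻¹ a).2 ((cy_one R hk' ha).2 h3)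
    rw [mul_one, mul_inv_cancel] at this
    exact this
  by_cases e4 : u * a = k
  · have e5 : u = k * a⁻¹ := by rw [← e4, mul_inv_cancel_right]
    rw [e4]
    refine iff_of_false ?_ (right_not_mem_IV e3)
    rw [mem_IV]
    rintro (e | e)
    · exact e1 e.symm
    · have := (cy_mul R k 1 k⁻¹ a⁻¹).2 ((cy_one R hk' ha').2 h4)
      rw [mul_one, mul_inv_cancel, ← e5] at this
      exact Cyc.asymm this e.rot.rot
  · exact same_iv ha hc e1 e2 e3 e4

/-- FIRST CASE of the triangle -/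
theorem tri1 {a b : FreeGroup α} (ha : Pos R a) (hb : Pos R b) (c1 : Cmp R 0 a 0 b)
    (ho : cy R 1 a (a * b)) {P : Type*} [Group P] (j : FreeGroup α →* P) (c : P) :
    qhom j c ha b = j b := by
  have h1 : cy R a⁻¹ 1 b := by
    have := (cy_mul R a⁻¹ 1 a (a * b)).2 ho
    rwa [mul_one, inv_mul_cancel, inv_mul_cancel_left] at this
  have ha' : a⁻¹ ≠ 1 := by simpa using ha.ne
  have h2 : key R b < key R a⁻¹ := (cy_one R hb.ne ha').1 h1.rot
  apply qhom_fix
  exact sep_none ha.ne hb.ne c1 (h2.trans ha.lt) h2 ((hb.lt.trans h2).trans ha.lt)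
    (hb.lt.trans h2)

/-- order theory of the second case -/
theorem tri2_ord {β : Type*} [LinearOrder β] {o a a' b b' c c' : β} (oa' : o < a')
    (ob : o < b) (ha : a' < a) (hb : b' < b) (hc : c' < c) (h1 : c < a) (h2 : a' < b)
    (h3 : b' < c') (l1 : ¬ Lk a' b o c) (l2 : ¬ Lk a' b o a) (l3 : ¬ Lk a' b o b')
    (ne : a' = b' ↔ a = b) : b < a ∧ b' < a' := by
  unfold Lk Cyc at *
  grind

/-- impossible signs -/
theorem tri3_ord {β : Type*} [LinearOrder β] {o h h' k k' c c' : β} (oh : o < h)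
    (ok : o < k) (ok' : o < k') (oc : o < c) (oc' : o < c')
    (p1 : h < h') (p2 : k < k') (p3 : c' < c) (h1 : h < c) (h2 : k < h') (h3 : c' < k')
    (l1 : ¬ Lk h c o h') (l2 : ¬ Lk h' k o c) (l3 : ¬ Lk c' k' o c) (l4 : ¬ Lk h' k o h)
    (l5 : ¬ Lk h c o k) (ne : h' = c → k ≠ h) : False := by
  unfold Lk Cyc at *
  grind

theorem triv_ord {β : Type*} [LinearOrder β] {h h' k k' c c' : β}
    (p1 : h' < h) (p2 : k' < k) (p3 : c < c') (h1 : h < c) (h2 : k < h') (h3 : c' < k') :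
    False := by
  order

/-- SECOND CASE of the triangle -/
theorem tri2 {a b : FreeGroup α} (ha : Pos R a) (hb : Pos R b) (hab : Pos R (a * b))
    (c1 : Cmp R 0 a 0 b) (c2 : Cmp R 0 (a * b) 0 a) (c3 : Cmp R 0 (a * b) 0 b)
    (ho : cy R 1 (a * b) a) {P : Type*} [Group P] (j : FreeGroup α →* P) (c : P) :
    qhom j c ha b = (j a)⁻¹ * c * j a * j b := by
  have ha' : a⁻¹ ≠ 1 := by simpa using ha.ne
  have hb' : b⁻¹ ≠ 1 := by simpa using hb.ne
  have hc' : (a * b)⁻¹ ≠ 1 := inv_ne_one.2 hab.ne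
  have h1 : key R (a * b) < key R a := (cy_one R hab.ne ha.ne).1 ho
  have h2 : key R a⁻¹ < key R b := by
    have := (cy_mul R a⁻¹ 1 (a * b) a).2 ho
    rw [mul_one, inv_mul_cancel, inv_mul_cancel_left] at this
    exact (cy_one R ha' hb.ne).1 this.rot.rot
  have h3 : key R b⁻¹ < key R (a * b)⁻¹ := by
    have := (cy_mul R (a * b)⁻¹ 1 (a * b) a).2 ho
    rw [mul_one, inv_mul_cancel] at this
    have e : (a * b)⁻¹ * a = b⁻¹ := by group
    rw [e] at this
    exact (cy_one R hb' hc').1 this.rot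
  have l0 : ∀ {m : FreeGroup α}, Cmp R 0 (a * b) 0 m →
      ¬ Lk (key R a⁻¹) (key R b) (key R 1) (key R m) := by
    intro m hm
    have := cmp_lk hm a⁻¹ 1
    rwa [inv_mul_cancel_left, one_mul] at this
  have key1 := tri2_ord (key_one_lt R ha') (key_one_lt R hb.ne) ha.lt hb.lt hab.lt h1 h2 h3
    (l0 hab.cmp) (l0 c2) (l0 c3.inv_right) (by
      constructor
      · intro e; have := key_inj R e; rw [inv_inj] at this; rw [this]
      · intro e; have := key_inj R e; rw [this])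
  have hne : a ≠ b := by rintro rfl; exact lt_irrefl _ key1.1
  -- the path from 1 to b
  have hm : ∀ C, (C ∈ HH R a ∧ (1 : FreeGroup α) ∉ C ∧ b ∈ C) ↔ C = IV R a⁻¹ 1 := by
    have hb1 : b ∈ IV R a⁻¹ 1 := mem_IV.2 (Or.inr ((cy_one R ha' hb.ne).2 h2).rot)
    -- the sides
    have s1 : b ∈ IV R 1 a := mem_IV.2 (Or.inr ((cy_one R hb.ne ha.ne).2 key1.1))
    have s2 : (1 : FreeGroup α) ∈ IV R b (b * a) := by
      refine mem_IV.2 (Or.inr ?_)
      have := (cy_mul R b 1 b⁻¹ a).2 ((cy_one R hb' ha.ne).2 (key1.2.trans ha.lt))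
      rwa [mul_one, mul_inv_cancel] at this
    have s3 : (1 : FreeGroup α) ∉ IV R (b * a⁻¹) b := by
      rw [mem_IV]
      rintro (e | e)
      · exact hne (mul_inv_eq_one.1 e.symm).symm
      · have := (cy_mul R b 1 b⁻¹ a⁻¹).2 ((cy_one R hb' ha').2 key1.2)
        rw [mul_one, mul_inv_cancel] at this
        exact Cyc.asymm this e.rot.rot
    intro C
    constructor
    · rintro ⟨⟨u, hu⟩, m1, m2⟩
      by_cases e1 : u = 1
      · subst e1
        rw [one_mul] at hu
        rcases hu with rfl | rfl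
        · exact (m1 (left_mem_IV _ _)).elim
        · rw [← compl_IV ha.ne.symm] at m2
          exact (m2 s1).elim
      by_cases e2 : u = a⁻¹
      · subst e2
        rw [inv_mul_cancel] at hu
        rcases hu with rfl | rfl
        · rfl
        · exact (m1 (left_mem_IV _ _)).elim
      by_cases e3 : u = b
      · subst e3
        rcases hu with rfl | rfl
        · exact (m1 s2).elim
        · exact (right_not_mem_IV (ne_mul ha.ne u).symm m2).elim
      by_cases e4 : u * a = b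
      · have e5 : u = b * a⁻¹ := by rw [← e4, mul_inv_cancel_right]
        rw [e4, e5] at hu
        have e6 : b * a⁻¹ ≠ b := by rw [← e5]; exact e3
        rcases hu with rfl | rfl
        · exact (right_not_mem_IV e6 m2).elim
        · rw [← compl_IV e6] at m1
          exact (m1 s3).elim
      · have s := same_iv ha.ne c1 e1 e2 e3 e4
        rcases hu with rfl | rfl
        · exact (m1 (s.2 m2)).elim
        · rw [← compl_IV (ne_mul ha.ne u)] at m1 m2
          exact (m2 (s.1 (not_not.1 m1))).elim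
    · rintro rfl
      exact ⟨⟨a⁻¹, Or.inl (by rw [inv_mul_cancel])⟩, right_not_mem_IV ha', hb1⟩
  rw [qhom_apply, Th_single hm]
  have t1 := tau_pos (R := R) j c ha.ne a⁻¹
  rw [inv_mul_cancel] at t1
  rw [t1, _root_.map_inv, inv_inv]

section surface
variable [Finite α] {Z : List (α × Bool)} (hZ : Bd R 0 Z) (hall : ∀ l, l ∈ Z)
  (hz : FreeGroup.mk Z ≠ 1)
include hZ hall hz

/-- TRI: the triangle relation for positive simple elements -/
theorem tri {a b : FreeGroup α} (ha : Pos R a) (hb : Pos R b) (hab : Pos R (a * b))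
    (c1 : Cmp R 0 a 0 b) (c2 : Cmp R 0 (a * b) 0 a) (c3 : Cmp R 0 (a * b) 0 b) :
    Qh hZ hall hz ha * Qh hZ hall hz hb = Qh hZ hall hz hab := by
  refine kp_unique hZ hall ?_ (Qh_w hZ hall hz _) ?_ (Qh_cap hZ hall hz _) ?_
  · show Qh hZ hall hz ha (Qh hZ hall hz hb (inc (FreeGroup.mk Z) * xx)) = _
    rw [Qh_w, Qh_w]
  · intro g
    show cap (Qh hZ hall hz ha (Qh hZ hall hz hb g)) = _
    rw [Qh_cap, Qh_cap]
  · show Qh hZ hall hz ha (Qh hZ hall hz hb xx) = _
    rw [Qh_xx, Qh_xx, _root_.map_mul, _root_.map_mul, _root_.map_inv, Qh_xx, Qh_apply, Qp_inc]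
    have hne1 : a ≠ a * b := ne_mul hb.ne a
    rcases cyc_total (key_ne (R := R) ha.ne.symm) (key_ne hne1) (key_ne hab.ne) with ho | ho
    · rw [tri1 ha hb c1 ho, _root_.map_mul]
      group
    · rw [tri2 ha hb hab c1 c2 c3 ho, _root_.map_mul]
      group

open Classical in
/-- the push along any simple element -/
noncomputable def Qt (h : FreeGroup α) : MulAut (FreeGroup (Option α)) :=
  if hp : Pos R h then Qh hZ hall hz hp
  else if hm : Pos R h⁻¹ then (Qh hZ hall hz hm)⁻¹ else 1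

omit [Finite α] hZ hall hz in
theorem pos_or {h : FreeGroup α} (hne : h ≠ 1) (hc : Cmp R 0 h 0 h) : Pos R h ∨ Pos R h⁻¹ := by
  have hne' : h⁻¹ ≠ 1 := by simpa using hne
  have h1 : h⁻¹ ≠ h := by
    intro e
    have h1 : h ^ 2 = 1 := by rw [pow_two]; nth_rw 1 [← e]; exact inv_mul_cancel h
    exact hne (by simpa using h1)
  rcases lt_or_gt_of_ne (key_ne (R := R) h1) with h2 | h2
  · exact Or.inl ⟨hne, hc, h2⟩
  · exact Or.inr ⟨hne', hc.inv_left.inv_right, by rwa [inv_inv]⟩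

omit [Finite α] hZ hall hz in
theorem Pos.not_inv {h : FreeGroup α} (hh : Pos R h) : ¬ Pos R h⁻¹ := by
  intro h'
  have := h'.lt
  rw [inv_inv] at this
  exact lt_asymm this hh.lt

theorem Qt_pos {h : FreeGroup α} (hh : Pos R h) : Qt hZ hall hz h = Qh hZ hall hz hh := by
  rw [Qt, dif_pos hh]

theorem Qt_neg {h : FreeGroup α} (hh : Pos R h⁻¹) :
    Qt hZ hall hz h = (Qh hZ hall hz hh)⁻¹ := by
  have : ¬ Pos R h := fun h' => h'.not_inv hh
  rw [Qt, dif_neg this, dif_pos hh]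

theorem Qt_inv (h : FreeGroup α) : Qt hZ hall hz h⁻¹ = (Qt hZ hall hz h)⁻¹ := by
  by_cases hp : Pos R h
  · have hp' : Pos R (h⁻¹)⁻¹ := by rwa [inv_inv]
    rw [Qt_neg hZ hall hz hp', Qt_pos hZ hall hz hp]
    congr 2
    exact inv_inv h
  · by_cases hm : Pos R h⁻¹
    · rw [Qt_pos hZ hall hz hm, Qt_neg hZ hall hz hm, inv_inv]
    · have : ¬ Pos R (h⁻¹)⁻¹ := by rwa [inv_inv]
      rw [Qt, dif_neg hm, dif_neg this, Qt, dif_neg hp, dif_neg hm, inv_one]

/-- all signs, first orientation -/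
theorem qt_mul_aux {h k : FreeGroup α} (hh : h ≠ 1) (hk : k ≠ 1) (hhk : h * k ≠ 1)
    (c1 : Cmp R 0 h 0 h) (c2 : Cmp R 0 k 0 k) (c3 : Cmp R 0 (h * k) 0 (h * k))
    (c4 : Cmp R 0 h 0 k) (c5 : Cmp R 0 (h * k) 0 h) (c6 : Cmp R 0 (h * k) 0 k)
    (ho : cy R 1 h (h * k)) :
    Qt hZ hall hz h * Qt hZ hall hz k = Qt hZ hall hz (h * k) := by
  have hh' : h⁻¹ ≠ 1 := by simpa using hh
  have hk' : k⁻¹ ≠ 1 := by simpa using hk
  have hc' : (h * k)⁻¹ ≠ 1 := inv_ne_one.2 hhk
  have g1 : key R h < key R (h * k) := (cy_one R hh hhk).1 ho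
  have g2 : key R k < key R h⁻¹ := by
    have := (cy_mul R h⁻¹ 1 h (h * k)).2 ho
    rw [mul_one, inv_mul_cancel, inv_mul_cancel_left] at this
    exact (cy_one R hk hh').1 this.rot
  have g3 : key R (h * k)⁻¹ < key R k⁻¹ := by
    have := (cy_mul R (h * k)⁻¹ 1 h (h * k)).2 ho
    rw [mul_one, inv_mul_cancel] at this
    have e : (h * k)⁻¹ * h = k⁻¹ := by group
    rw [e] at this
    exact (cy_one R hc' hk').1 this.rot.rot
  have e1 : k⁻¹ * h⁻¹ = (h * k)⁻¹ := by group
  have tr : ∀ {a b c : FreeGroup α}, Pos R a → Pos R b → Pos R c → Cmp R 0 a 0 b →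
      Cmp R 0 c 0 a → Cmp R 0 c 0 b → a * b = c →
      Qt hZ hall hz a * Qt hZ hall hz b = Qt hZ hall hz c := by
    rintro a b _ ha hb hab d1 d2 d3 rfl
    rw [Qt_pos hZ hall hz ha, Qt_pos hZ hall hz hb, Qt_pos hZ hall hz hab]
    exact tri hZ hall hz ha hb hab d1 d2 d3
  rcases pos_or hh c1 with ph | ph <;> rcases pos_or hk c2 with pk | pk <;>
    rcases pos_or hhk c3 with pc | pc
  · exact tr ph pk pc c4 c5 c6 rfl
  · have := pc.lt
    rw [inv_inv] at this
    exact (triv_ord ph.lt pk.lt this g1 g2 g3).elim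
  · have := tr pc pk ph c6.inv_right c5.symm c4.inv_right (by group)
    rw [Qt_inv] at this
    rw [← this]; group
  · have := tr pc ph pk c5.inv_left c6.symm.inv_left.inv_right c4.symm.inv_left (by group)
    rw [Qt_inv, Qt_inv] at this
    rw [eq_comm, ← mul_inv_eq_one, ← inv_inv (Qt hZ hall hz k), ← this]; group
  · have := tr ph pc pk c5.symm.inv_left c4.symm.inv_right c6.symm (by group)
    rw [Qt_inv] at this
    rw [← this]; group
  · have := tr pk pc ph c6.symm.inv_right c4.inv_left c5.symm.inv_left.inv_right (by group)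
    rw [Qt_inv, Qt_inv] at this
    rw [← inv_inv (Qt hZ hall hz h), ← this]; group
  · -- impossible
    exfalso
    have p1 := ph.lt
    have p2 := pk.lt
    rw [inv_inv] at p1 p2
    refine tri3_ord (key_one_lt R hh) (key_one_lt R hk) (key_one_lt R hk') (key_one_lt R hhk)
      (key_one_lt R hc') p1 p2 pc.lt g1 g2 g3 ?_ ?_ ?_ ?_ ?_ ?_
    · have := cmp_lk c4.symm.inv_right h 1
      rwa [one_mul] at this
    · have := cmp_lk c3 h⁻¹ 1
      rwa [inv_mul_cancel_left, one_mul] at this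
    · have := cmp_lk c5.symm (h * k)⁻¹ 1
      rwa [one_mul, show (h * k)⁻¹ * h = k⁻¹ by group] at this
    · have := cmp_lk c5 h⁻¹ 1
      rwa [inv_mul_cancel_left, one_mul] at this
    · have := cmp_lk c2 h 1
      rwa [one_mul] at this
    · intro e1 e2
      have e1 := key_inj R e1
      have e2 := key_inj R e2
      rw [e2] at e1
      have h3 : h ^ 3 = 1 := by
        rw [pow_succ, pow_two, ← e1, inv_mul_cancel]
      exact hh (by simpa using h3)
  · have := tr pk ph pc c4.symm.inv_left.inv_right c6.inv_left.inv_right c5.inv_left.inv_right e1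
    rw [Qt_inv, Qt_inv, Qt_inv] at this
    rw [← inv_inj, mul_inv_rev, this]

/-- TRI for all signs and orientations -/
theorem qt_mul {h k : FreeGroup α} (hh : h ≠ 1) (hk : k ≠ 1) (hhk : h * k ≠ 1)
    (c1 : Cmp R 0 h 0 h) (c2 : Cmp R 0 k 0 k) (c3 : Cmp R 0 (h * k) 0 (h * k))
    (c4 : Cmp R 0 h 0 k) (c5 : Cmp R 0 (h * k) 0 h) (c6 : Cmp R 0 (h * k) 0 k) :
    Qt hZ hall hz h * Qt hZ hall hz k = Qt hZ hall hz (h * k) := by
  have hne1 : h ≠ h * k := ne_mul hk h
  rcases cyc_total (key_ne (R := R) hh.symm) (key_ne hne1) (key_ne hhk) with ho | ho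
  · exact qt_mul_aux hZ hall hz hh hk hhk c1 c2 c3 c4 c5 c6 ho
  · have hh' : h⁻¹ ≠ 1 := by simpa using hh
    have hk' : k⁻¹ ≠ 1 := by simpa using hk
    have e1 : k⁻¹ * h⁻¹ = (h * k)⁻¹ := by group
    have hc' : k⁻¹ * h⁻¹ ≠ 1 := by rw [e1]; exact inv_ne_one.2 hhk
    have ho' : cy R 1 k⁻¹ (k⁻¹ * h⁻¹) := by
      have := (cy_mul R (h * k)⁻¹ 1 (h * k) h).2 ho
      rw [mul_one, inv_mul_cancel, show (h * k)⁻¹ * h = k⁻¹ by group, ← e1] at this
      exact this.rot
    have := qt_mul_aux hZ hall hz hk' hh' hc' c2.inv_left.inv_right c1.inv_left.inv_right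
      (by rw [e1]; exact c3.inv_left.inv_right) c4.symm.inv_left.inv_right
      (by rw [e1]; exact c6.inv_left.inv_right) (by rw [e1]; exact c5.inv_left.inv_right) ho'
    rw [e1, Qt_inv, Qt_inv, Qt_inv] at this
    rw [← inv_inj, mul_inv_rev, this]

/-- naturality for all signs -/
theorem Qt_conj {h : FreeGroup α} (hh : h ≠ 1) (hc : Cmp R 0 h 0 h) (φ : MulAut (FreeGroup α))
    (hφ : φ (FreeGroup.mk Z) = FreeGroup.mk Z) :
    up φ * Qt hZ hall hz h * (up φ)⁻¹ = Qt hZ hall hz (φ h) := by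
  rcases pos_or hh hc with hp | hm
  · rw [Qt_pos hZ hall hz hp, Qh_conj hZ hall hz hp φ hφ, ← Qt_pos]
  · have h1 : Pos R (φ h)⁻¹ := by
      rw [← _root_.map_inv]; exact hm.ap hZ hall hz φ hφ
    rw [Qt_neg hZ hall hz hm, Qt_neg hZ hall hz h1]
    have h2 := Qh_conj hZ hall hz hm φ hφ
    have h3 : Qh hZ hall hz (hm.ap hZ hall hz φ hφ) = Qh hZ hall hz h1 := by
      congr 1
      exact _root_.map_inv φ h
    rw [← h3, ← h2]
    group

end surface

end grp

end Pool.Agent.TOR.H98
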